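import Pool.Agent.Lib.MP_c1785c_lc.GeoNo

/-!
A three-colouring of the part of the graph that avoids the ends of the two paths.
-/

set_option autoImplicit false

namespace Pool.Agent.Lib.MP_c1785c_lc

open Set

lemma perm3 : ∀ x0 y0 x1 y1 : Fin 3, y0 ≠ x0 → y1 ≠ x1 → ∃ π : Fin 3 → Fin 3,
    (∀ a b, π a = π b → a = b) ∧ π x1 = x0 ∧ π y1 ≠ y0 := by
  have : ∀ x0 y0 x1 y1 : Fin 3, y0 ≠ x0 → y1 ≠ x1 → ∃ e t : Fin 3,
    (∀ a b, e * a + t = e * b + t → a = b) ∧ e * x1 + t = x0 ∧ e * y1 + t ≠ y0 := by decide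
  intro x0 y0 x1 y1 h h'
  obtain ⟨e, t, k⟩ := this x0 y0 x1 y1 h h'
  exact ⟨fun a => e * a + t, k⟩

lemma split {S : Type} (ty : S → Bool) (side : S → S → Bool) (R : Finset (S × S))
    (hs : ∀ a b, (a, b) ∈ R → (b, a) ∈ R) (ht : ∀ a b, (a, b) ∈ R → ty a ≠ ty b)
    (h : ∀ s a b, (a, b) ∈ R → a ≠ s → b ≠ s → side s a = side s b) :
    ∃ col : S → Fin 3, (∀ a b, (a, b) ∈ R → col a ≠ col b) ∧
      ∀ a b s, (a, s) ∈ R → (b, s) ∈ R → (col a = col b ↔ side s a = side s b) := by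
  classical
  induction R using Finset.strongInduction with
  | H R ih =>
  by_cases c : ∃ s a b, (a, s) ∈ R ∧ (b, s) ∈ R ∧ side s a = false ∧ side s b = true
  · obtain ⟨s, a, b, ha, hb, sa, sb⟩ := c
    have ne : ∀ x y, (x, y) ∈ R → x ≠ y := fun x y k e => ht x y k (congrArg ty e)
    let Q : Bool → Finset (S × S) := fun j => R.filter fun e =>
      (e.1 ≠ s → side s e.1 = j) ∧ (e.2 ≠ s → side s e.2 = j)
    have mem : ∀ j x y, (x, y) ∈ Q j ↔ (x, y) ∈ R ∧ (x ≠ s → side s x = j) ∧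
        (y ≠ s → side s y = j) := fun j x y => Finset.mem_filter
    have IH := fun (j : Bool) (x : S) (hx : (x, s) ∈ R) (hj : side s x ≠ j) =>
      ih (Q j) (Finset.filter_ssubset.mpr ⟨_, hx, fun k => hj (k.1 (ne _ _ hx))⟩)
        (fun x y k => (mem j y x).mpr ⟨hs _ _ ((mem j x y).mp k).1, ((mem j x y).mp k).2.symm⟩)
        (fun x y k => ht _ _ ((mem j x y).mp k).1)
        (fun s x y k => h s x y ((mem j x y).mp k).1)
    obtain ⟨c0, p0, q0⟩ := IH false b hb (by simp [sb])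
    obtain ⟨c1, p1, q1⟩ := IH true a ha (by simp [sa])
    have ma : (a, s) ∈ Q false := (mem _ _ _).mpr ⟨ha, fun _ => sa, fun k => absurd rfl k⟩
    have mb : (b, s) ∈ Q true := (mem _ _ _).mpr ⟨hb, fun _ => sb, fun k => absurd rfl k⟩
    obtain ⟨π, π1, π2, π3⟩ := perm3 (c0 s) (c0 a) (c1 s) (c1 b) (p0 _ _ ma) (p1 _ _ mb)
    let col : S → Fin 3 := fun t => if t ≠ s ∧ side s t = true then π (c1 t) else c0 t
    have e0 : ∀ x, (x ≠ s → side s x = false) → col x = c0 x := fun x k =>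
      if_neg fun k' => by simpa [k k'.1] using k'.2
    have e1 : ∀ x, (x ≠ s → side s x = true) → col x = π (c1 x) := fun x k => by
      by_cases c : x = s
      · rw [c, π2]; exact e0 s fun k => absurd rfl k
      · exact if_pos ⟨c, k c⟩
    have cases : ∀ x y, (x, y) ∈ R → x ≠ s → (x, y) ∈ Q (side s x) := fun x y k c =>
      (mem _ _ _).mpr ⟨k, fun _ => rfl, fun c' => (h s x y k c c').symm⟩
    have P : ∀ j x y, (x, y) ∈ Q j → col x ≠ col y := by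
      intro j x y k
      have k' := (mem _ _ _).mp k
      cases j
      · rw [e0 x k'.2.1, e0 y k'.2.2]; exact p0 _ _ k
      · rw [e1 x k'.2.1, e1 y k'.2.2]; exact fun e => p1 _ _ k (π1 _ _ e)
    have P' : ∀ j x y t, (x, t) ∈ Q j → (y, t) ∈ Q j → (col x = col y ↔ side t x = side t y) := by
      intro j x y t k l
      have k' := (mem _ _ _).mp k
      have l' := (mem _ _ _).mp l
      cases j
      · rw [e0 x k'.2.1, e0 y l'.2.1]; exact q0 _ _ _ k l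
      · rw [e1 x k'.2.1, e1 y l'.2.1, ← q1 _ _ _ k l]
        exact ⟨π1 _ _, congrArg π⟩
    have sy : ∀ j x y, (x, y) ∈ Q j → (y, x) ∈ Q j := fun j x y k =>
      (mem j y x).mpr ⟨hs _ _ ((mem j x y).mp k).1, ((mem j x y).mp k).2.symm⟩
    refine ⟨col, fun x y k => ?_, fun x y t k l => ?_⟩
    · by_cases c : x = s
      · exact (P _ _ _ (cases y x (hs _ _ k) (c ▸ (ne _ _ k).symm))).symm
      · exact P _ _ _ (cases x y k c)
    · by_cases c : t = s
      · subst c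
        have k' := cases x t k (ne _ _ k)
        have l' := cases y t l (ne _ _ l)
        have mix : ∀ x y, (x, t) ∈ Q false → (y, t) ∈ Q true → col x ≠ col y := by
          intro x y k l
          have k' := (mem _ _ _).mp k
          have l' := (mem _ _ _).mp l
          rw [e0 x k'.2.1, e1 y l'.2.1, (q0 x a t k ma).mpr ((k'.2.1 (ne _ _ k'.1)).trans sa.symm),
            (q1 y b t l mb).mpr ((l'.2.1 (ne _ _ l'.1)).trans sb.symm)]
          exact π3.symm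
        cases hx : side t x <;> cases hy : side t y <;> rw [hx] at k' <;> rw [hy] at l'
        · rw [P' _ _ _ _ k' l', hx, hy]
        · simpa using mix x y k' l'
        · simpa using (mix y x l' k').symm
        · rw [P' _ _ _ _ k' l', hx, hy]
      · exact P' _ _ _ _ (sy _ _ _ (cases t x (hs _ _ k) c)) (sy _ _ _ (cases t y (hs _ _ l) c))
  · refine ⟨fun t => if ty t = true then 1 else 0, fun a b k => ?_, fun a b s k l => ?_⟩
    · have := ht a b k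
      cases ha : ty a <;> cases hb : ty b <;> simp_all
    · have e1 : ty a = ty b := by
        have := ht _ _ k
        have := ht _ _ l
        cases ha : ty a <;> cases hb : ty b <;> cases hs : ty s <;> simp_all
      simp only [e1, true_iff]
      cases ha : side s a <;> cases hb : side s b
      · rfl
      · exact absurd ⟨s, a, b, k, l, ha, hb⟩ c
      · exact absurd ⟨s, b, a, l, k, hb, ha⟩ c
      · rfl

lemma two_colour {κ V : Type} [Finite κ] [Finite V] (r : V → ℝ) (J : κ → Set V)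
    (hc : ∀ K K' x y z, x ∈ J K → z ∈ J K → y ∈ J K' → r x ≤ r y → r y ≤ r z → y ∈ J K)
    (h3 : ∀ K1 K2 K3 x, x ∈ J K1 → x ∈ J K2 → x ∈ J K3 → K1 = K2 ∨ K1 = K3 ∨ K2 = K3) :
    ∃ two : κ → Bool, ∀ K K' x, K ≠ K' → x ∈ J K → x ∈ J K' → two K ≠ two K' := by
  classical
  have : Fintype κ := Fintype.ofFinite κ
  have hl : ∀ K, ∃ l : ℝ, ∀ x ∈ J K, ∃ y ∈ J K, r y = l ∧ l ≤ r x := fun K => by
    rcases (J K).eq_empty_or_nonempty with e | e
    · exact ⟨0, by simp [e]⟩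
    · obtain ⟨y, hy, hm⟩ := exists_min_image (J K) r (toFinite _) e
      exact ⟨r y, fun x hx => ⟨y, hy, rfl, hm x hx⟩⟩
  choose l hl using hl
  suffices H : ∀ F : Finset κ, ∃ two : κ → Bool, ∀ K ∈ F, ∀ K' ∈ F, ∀ x, K ≠ K' → x ∈ J K →
      x ∈ J K' → two K ≠ two K' by
    obtain ⟨two, h⟩ := H Finset.univ
    exact ⟨two, fun K K' => h K (Finset.mem_univ _) K' (Finset.mem_univ _)⟩
  intro F
  induction F using Finset.induction_on_max_value l with
  | empty => exact ⟨fun _ => true, by simp⟩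
  | insert K F hK hm ih =>
    obtain ⟨two, h⟩ := ih
    have : ∃ j : Bool, ∀ K' ∈ F, ∀ x, x ∈ J K → x ∈ J K' → j ≠ two K' := by
      by_cases c : ∃ K' ∈ F, ∃ x, x ∈ J K ∧ x ∈ J K'
      · obtain ⟨K1, m1, x1, a1, b1⟩ := c
        refine ⟨!two K1, fun K2 m2 x2 a2 b2 => ?_⟩
        obtain ⟨y, y1, y2, y3⟩ := hl K x1 a1
        obtain ⟨-, -, -, y4⟩ := hl K x2 a2
        obtain ⟨z1, c1, d1, -⟩ := hl K1 x1 b1
        obtain ⟨z2, c2, d2, -⟩ := hl K2 x2 b2
        have e1 := hc K1 K z1 y x1 c1 b1 y1 (by rw [d1, y2]; exact hm _ m1) (y2 ▸ y3)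
        have e2 := hc K2 K z2 y x2 c2 b2 y1 (by rw [d2, y2]; exact hm _ m2) (y2 ▸ y4)
        rcases h3 K K1 K2 y y1 e1 e2 with e | e | e
        · exact absurd (e ▸ m1) hK
        · exact absurd (e ▸ m2) hK
        · simp [e]
      · exact ⟨true, fun K' m x a b => absurd ⟨K', m, x, a, b⟩ c⟩
    obtain ⟨j, hj⟩ := this
    refine ⟨Function.update two K j, fun K1 m1 K2 m2 x ne a b => ?_⟩
    have n : ∀ K' ∈ F, Function.update two K j K' = two K' := fun K' m =>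
      Function.update_of_ne (fun e : K' = K => hK (e ▸ m)) _ _
    rcases Finset.mem_insert.mp m1 with e1 | m1 <;> rcases Finset.mem_insert.mp m2 with e2 | m2
    · exact absurd (e1.trans e2.symm) ne
    · rw [e1, Function.update_self, n _ m2]; exact hj _ m2 x (e1 ▸ a) b
    · rw [e2, Function.update_self, n _ m1]; exact (hj _ m1 x (e2 ▸ b) a).symm
    · rw [n _ m1, n _ m2]; exact h _ m1 _ m2 x ne a b

variable {V : Type}

namespace Conn

variable {H H' : V → V → Prop} {U U' : Set V} {x y z : V}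

lemma right (h : Conn H U x y) : y ∈ U := by
  obtain ⟨hx, h⟩ := h
  induction h with
  | refl => exact hx
  | tail _ h _ => exact h.2

lemma refl (hx : x ∈ U) : Conn H U x x := ⟨hx, .refl⟩

lemma single (hx : x ∈ U) (hy : y ∈ U) (h : H x y) : Conn H U x y := ⟨hx, .single ⟨h, hy⟩⟩

lemma trans (h : Conn H U x y) (h' : Conn H U y z) : Conn H U x z := ⟨h.1, h.2.trans h'.2⟩

lemma mono' (h : Conn H U x y) (hH : ∀ u v, H u v → H' u v) (hU : U ⊆ U') : Conn H' U' x y := by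
  obtain ⟨hx, h⟩ := h
  induction h with
  | refl => exact refl (hU hx)
  | tail k h ih => exact ⟨ih.1, ih.2.tail ⟨hH _ _ h.1, hU h.2⟩⟩

lemma mono (h : Conn H U x y) (hU : U ⊆ U') : Conn H U' x y := h.mono' (fun _ _ => id) hU

lemma symm (hs : ∀ u v, H u v → H v u) (h : Conn H U x y) : Conn H U y x := by
  obtain ⟨hx, h⟩ := h
  induction h with
  | refl => exact refl hx
  | tail k h ih => exact (single h.2 ih.1 (hs _ _ h.1)).trans ih

lemma comp (h : Conn H U x y) : Conn H {v | Conn H U x v} x y := by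
  obtain ⟨hx, h⟩ := h
  induction h with
  | refl => exact refl (refl hx)
  | tail k h ih => exact ih.trans (single ⟨hx, k⟩ ⟨hx, k.tail h⟩ h.1)

end Conn

variable {E : V → V → Prop} {cl : V → Bool} {r : V → ℝ}

lemma Hrel.symm (hE : ∀ u v, E u v → E v u) (u v : V) (h : Hrel E cl r u v) : Hrel E cl r v u :=
  h.imp (hE _ _) fun h => ⟨h.1.symm, fun w hw k => h.2 w (hw.trans h.1.symm) k.symm⟩

lemma chain [Finite V] (x y : V) (c : cl x = cl y) (h : r x ≤ r y) :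
    Conn (Hrel E cl r) {v | cl v = cl x ∧ r x ≤ r v ∧ r v ≤ r y} x y := by
  induction hn : {v | r x < r v ∧ r v < r y}.ncard using Nat.strong_induction_on
    generalizing x y with
  | h n ih =>
  by_cases k : ∃ w, cl w = cl x ∧ Btw r x w y
  · obtain ⟨w, cw, k | k⟩ := k
    · have a1 := ih _ (hn ▸ ncard_lt_ncard ⟨fun v (hv : r x < r v ∧ r v < r w) =>
        (⟨hv.1, hv.2.trans k.2⟩ : r x < r v ∧ r v < r y), fun hs => lt_irrefl _ (hs k).2⟩)
        x w cw.symm k.1.le rfl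
      have a2 := ih _ (hn ▸ ncard_lt_ncard ⟨fun v (hv : r w < r v ∧ r v < r y) =>
        (⟨k.1.trans hv.1, hv.2⟩ : r x < r v ∧ r v < r y), fun hs => lt_irrefl _ (hs k).1⟩)
        w y (cw.trans c) k.2.le rfl
      exact (a1.mono fun v hv => by exact ⟨hv.1, hv.2.1, hv.2.2.trans k.2.le⟩).trans
        (a2.mono fun v hv => ⟨hv.1.trans cw, k.1.le.trans hv.2.1, hv.2.2⟩)
    · exact absurd (k.1.trans k.2) h.not_gt
  · exact Conn.single ⟨rfl, le_rfl, h⟩ ⟨c.symm, h, le_rfl⟩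
      (Or.inr ⟨c, fun w cw b => k ⟨w, cw, b⟩⟩)

lemma NoK33.six {H : V → V → Prop} (hK : NoK33 H) (A0 A1 A2 B0 B1 B2 : Set V)
    (a0 a1 a2 b0 b1 b2 : V) (d1 : Disjoint A0 A1) (d2 : Disjoint A0 A2) (d3 : Disjoint A1 A2)
    (d4 : Disjoint B0 B1) (d5 : Disjoint B0 B2) (d6 : Disjoint B1 B2)
    (d7 : ∀ x, x ∈ A0 ∨ x ∈ A1 ∨ x ∈ A2 → x ∈ B0 ∨ x ∈ B1 ∨ x ∈ B2 → False)
    (c1 : Conn H (A0 ∪ B0) a0 b0) (c2 : Conn H (A0 ∪ B1) a0 b1) (c3 : Conn H (A0 ∪ B2) a0 b2)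
    (c4 : Conn H (A1 ∪ B0) a1 b0) (c5 : Conn H (A1 ∪ B1) a1 b1) (c6 : Conn H (A1 ∪ B2) a1 b2)
    (c7 : Conn H (A2 ∪ B0) a2 b0) (c8 : Conn H (A2 ∪ B1) a2 b1) (c9 : Conn H (A2 ∪ B2) a2 b2) :
    False := by
  refine hK ![A0, A1, A2] ![B0, B1, B2] ![a0, a1, a2] ![b0, b1, b2] ?_ ?_ ?_ ?_
  · intro i k h
    fin_cases i <;> fin_cases k <;> first | exact absurd rfl h | assumption | (symm; assumption)
  · intro i k h
    fin_cases i <;> fin_cases k <;> first | exact absurd rfl h | assumption | (symm; assumption)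
  · intro i j
    refine disjoint_left.mpr fun x h1 h2 => d7 x ?_ ?_
    · fin_cases i
      exacts [.inl h1, .inr (.inl h1), .inr (.inr h1)]
    · fin_cases j
      exacts [.inl h2, .inr (.inl h2), .inr (.inr h2)]
  · intro i j
    fin_cases i <;> fin_cases j <;> assumption

theorem colouring [Finite V] (hE : ∀ u v, E u v → E v u) (hcl : ∀ u v, E u v → cl u ≠ cl v)
    (hr : Function.Injective r) (hK : NoK33 (Hrel E cl r)) (W : Set V) (z0 : V)
    (hZ : ∀ z, z ∉ W → Conn E Wᶜ z z0)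
    (lo : ∀ w ∈ W, ∃ z, z ∉ W ∧ cl z = cl w ∧ r z < r w)
    (hi : ∀ w ∈ W, ∃ z, z ∉ W ∧ cl z = cl w ∧ r w < r z) :
    ∃ c : V → Fin 3, (∀ u ∈ W, ∀ v ∈ W, E u v → c u ≠ c v) ∧
      ∀ u ∈ W, ∀ w ∈ W, u ≠ w → ∀ v : Fin 3 → V, Function.Injective v →
        (∀ i, v i ∈ W ∧ E u (v i) ∧ E w (v i)) → c u ≠ c w := by
  classical
  have : Fintype V := Fintype.ofFinite V
  have Hs := Hrel.symm (cl := cl) (r := r) hE
  set H := Hrel E cl r with hH
  let sg : V → Set V := fun u => {z | z ∉ W ∧ cl z = cl u ∧ r z < r u}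
  have sgcl : ∀ u ∈ W, ∀ v, sg u = sg v → cl u = cl v := fun u hu v e => by
    obtain ⟨z, hz⟩ := lo u hu
    exact hz.2.1.symm.trans (show z ∈ sg v from e ▸ hz).2.1
  have mid : ∀ u v y, v ∈ W → cl u = cl v → sg u = sg v → cl y = cl u → r u ≤ r y → r y ≤ r v →
      y ∈ W ∧ sg y = sg v := by
    intro u v y hv c e cy h1 h2
    refine ⟨by_contra fun n => ?_, Subset.antisymm (fun z hz => ?_) fun z hz => ?_⟩
    · have : y ∈ sg u := e ▸ ⟨n, cy.trans c, lt_of_le_of_ne h2 (hr.ne fun e => n (e ▸ hv))⟩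
      exact this.2.2.not_ge h1
    · exact ⟨hz.1, (hz.2.1.trans cy).trans c, hz.2.2.trans_le h2⟩
    · have : z ∈ sg u := e ▸ hz
      exact ⟨this.1, this.2.1.trans cy.symm, this.2.2.trans_le h1⟩
  have inseg : ∀ u ∈ W, ∀ v ∈ W, sg u = sg v → r u ≤ r v →
      Conn H {y | y ∈ W ∧ sg y = sg v ∧ r u ≤ r y ∧ r y ≤ r v} u v := fun u hu v hv e h =>
    (chain u v (sgcl u hu v e) h).mono fun y hy =>
      have := mid u v y hv (sgcl u hu v e) e hy.1 hy.2.1 hy.2.2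
      ⟨this.1, this.2, hy.2⟩
  have inseg' : ∀ u ∈ W, ∀ v ∈ W, sg u = sg v → ∀ U : Set V,
      (∀ y ∈ W, sg y = sg v → min (r u) (r v) ≤ r y → r y ≤ max (r u) (r v) → y ∈ U) →
      Conn H U u v := fun u hu v hv e U hU => by
    rcases le_total (r u) (r v) with h | h
    · exact (inseg u hu v hv e h).mono fun y hy =>
        hU y hy.1 hy.2.1 (min_le_of_left_le hy.2.2.1) (le_max_of_le_right hy.2.2.2)
    · exact ((inseg v hv u hu e.symm h).symm Hs).mono fun y hy =>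
        hU y hy.1 (hy.2.1.trans e) (min_le_of_right_le hy.2.2.1) (le_max_of_le_left hy.2.2.2)
  have hZ' : ∀ z, z ∉ W → Conn H Wᶜ z z0 := fun z hz =>
    (hZ z hz).mono' (fun _ _ => .inl) Subset.rfl
  have down : ∀ v ∈ W, ∀ U : Set V, (∀ y ∈ W, sg y = sg v → r y ≤ r v → y ∈ U) →
      Conn H (U ∪ Wᶜ) v z0 := by
    intro v hv U hU
    obtain ⟨z, hz, hm⟩ := exists_max_image (sg v) r (toFinite _) (lo v hv)
    refine (((chain z v hz.2.1 hz.2.2.le).symm Hs).mono fun y hy => ?_).trans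
      ((hZ' z hz.1).mono subset_union_right)
    by_cases c : y ∈ W
    · refine .inl (hU y c (Subset.antisymm (fun t ht => ?_) fun t ht => ?_) hy.2.2)
      · exact ⟨ht.1, (ht.2.1.trans hy.1).trans hz.2.1, ht.2.2.trans_le hy.2.2⟩
      · exact ⟨ht.1, ht.2.1.trans (hy.1.trans hz.2.1).symm, lt_of_le_of_ne
          ((hm t ht).trans hy.2.1) (hr.ne fun e => ht.1 (e ▸ c))⟩
    · exact .inr c
  have up : ∀ v ∈ W, ∀ U : Set V, (∀ y ∈ W, sg y = sg v → r v ≤ r y → y ∈ U) →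
      Conn H (U ∪ Wᶜ) v z0 := by
    intro v hv U hU
    obtain ⟨z, hz, hm⟩ := exists_min_image {z | z ∉ W ∧ cl z = cl v ∧ r v < r z} r (toFinite _)
      (hi v hv)
    refine ((chain v z hz.2.1.symm hz.2.2.le).mono fun y hy => ?_).trans
      ((hZ' z hz.1).mono subset_union_right)
    by_cases c : y ∈ W
    · refine .inl (hU y c (Subset.antisymm (fun t ht => ?_) fun t ht => ?_) hy.2.1)
      · refine ⟨ht.1, ht.2.1.trans hy.1, lt_of_le_of_ne (not_lt.mp fun k => ?_)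
          (hr.ne fun e => ht.1 (e ▸ hv))⟩
        exact (hm t ⟨ht.1, ht.2.1.trans hy.1, k⟩).not_gt (ht.2.2.trans_le hy.2.2)
      · exact ⟨ht.1, ht.2.1.trans hy.1.symm, ht.2.2.trans_le hy.2.1⟩
    · exact .inr c
  let D : Set V → Set V := fun s => {y | y ∈ W ∧ sg y ≠ s}
  let cp : Set V → V → Set V := fun s u => {v | Conn H (D s) u v}
  have cpe : ∀ s u v, Conn H (D s) u v → cp s u = cp s v := fun s u v h =>
    Set.ext fun y => ⟨(h.symm Hs).trans, h.trans⟩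
  let J : Set V → Set V → Set V := fun s K => {x | x ∈ W ∧ sg x = s ∧ (∃ u ∈ D s, K = cp s u) ∧
    (∃ a ∈ K, ∃ p ∈ W, sg p = s ∧ E a p ∧ r p < r x) ∧
      ∃ a ∈ K, ∃ p ∈ W, sg p = s ∧ E a p ∧ r x < r p}
  have h2 : ∀ s, ∃ two : Set V → Bool, ∀ K K' x, K ≠ K' → x ∈ J s K → x ∈ J s K' →
      two K ≠ two K' := by
    intro s
    refine two_colour r (J s) ?_ ?_
    · rintro K K' x y z ⟨-, -, k, ⟨a, a1, p, p1, p2, p3, p4⟩, -⟩
        ⟨-, -, -, -, b, b1, q, q1, q2, q3, q4⟩ ⟨y1, y2, -⟩ h1 h2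
      exact ⟨y1, y2, k, ⟨a, a1, p, p1, p2, p3, p4.trans_le h1⟩, b, b1, q, q1, q2, q3,
        h2.trans_lt q4⟩
    · intro K1 K2 K3 x m1 m2 m3
      by_contra n
      simp only [not_or] at n
      obtain ⟨-, -, -, ⟨-, -, p0, p01, p02, -, p03⟩, -, -, q0, q01, q02, -, q03⟩ := id m1
      have key : ∀ K, x ∈ J s K → ∃ u, K = cp s u ∧
          Conn H (K ∪ {y | y ∈ W ∧ sg y = s ∧ r y < r x}) u p0 ∧
          Conn H (K ∪ {y | y ∈ W ∧ sg y = s ∧ r x < r y}) u q0 ∧ Conn H (K ∪ Wᶜ) u z0 := by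
        rintro K ⟨-, -, ⟨u, hu, rfl⟩, ⟨a, a1, p, p1, p2, p3, p4⟩, b, b1, q, q1, q2, q3, q4⟩
        refine ⟨u, rfl, ?_, ?_, ?_⟩
        · exact ((a1.comp.mono subset_union_left).trans (.single (.inl a1) (.inr (by exact ⟨p1, p2, p4⟩))
            (.inl p3))).trans (inseg' p p1 p0 p01 (p2.trans p02.symm) _ fun y y1 y2 _ y3 =>
              .inr ⟨y1, y2.trans p02, y3.trans_lt (max_lt p4 p03)⟩)
        · exact ((b1.comp.mono subset_union_left).trans (.single (.inl b1) (.inr (by exact ⟨q1, q2, q4⟩))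
            (.inl q3))).trans (inseg' q q1 q0 q01 (q2.trans q02.symm) _ fun y y1 y2 y3 _ =>
              .inr ⟨y1, y2.trans q02, (lt_min q4 q03).trans_le y3⟩)
        · exact down u hu.1 _ fun y y1 y2 _ => inseg' u hu.1 y y1 y2.symm _
            fun t t1 t2 _ _ => ⟨t1, (t2.trans y2).symm ▸ hu.2⟩
      obtain ⟨u1, e1, a1, b1, c1⟩ := key K1 m1
      obtain ⟨u2, e2, a2, b2, c2⟩ := key K2 m2
      obtain ⟨u3, e3, a3, b3, c3⟩ := key K3 m3
      have dj : ∀ u v, cp s u ≠ cp s v → Disjoint (cp s u) (cp s v) := fun u v ne =>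
        disjoint_left.mpr fun y h1 h2 => ne ((cpe s u y h1).trans (cpe s v y h2).symm)
      subst e1 e2 e3
      refine hK.six _ _ _ _ _ Wᶜ u1 u2 u3 p0 q0 z0 (dj _ _ n.1) (dj _ _ n.2.1) (dj _ _ n.2.2)
        (disjoint_left.mpr fun y h1 h2 => lt_asymm h1.2.2 h2.2.2)
        (disjoint_left.mpr fun y h1 h2 => h2 h1.1) (disjoint_left.mpr fun y h1 h2 => h2 h1.1)
        (fun y h1 h2 => ?_) a1 b1 c1 a2 b2 c2 a3 b3 c3
      have : y ∈ D s := by rcases h1 with h | h | h <;> exact Conn.right h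
      rcases h2 with h | h | h
      exacts [this.2 h.2.1, this.2 h.2.1, h this.1]
  choose two htwo using h2
  have rep : ∀ t : Set V, ∃ v, (∃ u ∈ W, sg u = t) → v ∈ W ∧ sg v = t := fun t => by
    by_cases c : ∃ u ∈ W, sg u = t
    · exact c.imp fun u h _ => h
    · exact ⟨z0, fun h => absurd h c⟩
  choose ρ hρ using rep
  have eρ : ∀ s, ∀ v ∈ W, sg v ≠ s → cp s (ρ (sg v)) = cp s v := fun s v hv ne =>
    have := hρ (sg v) ⟨v, hv, rfl⟩
    cpe s _ _ (inseg' _ this.1 v hv this.2 _ fun y y1 y2 _ _ => ⟨y1, y2.symm ▸ ne⟩)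
  let R : Finset (Set V × Set V) := Finset.univ.filter fun e =>
    ∃ u ∈ W, ∃ v ∈ W, E u v ∧ sg u = e.1 ∧ sg v = e.2
  have mR : ∀ a b, (a, b) ∈ R ↔ ∃ u ∈ W, ∃ v ∈ W, E u v ∧ sg u = a ∧ sg v = b := fun a b => by
    simp only [R, Finset.mem_filter, Finset.mem_univ, true_and]
  obtain ⟨col, p1, p2⟩ := split (fun t => cl (ρ t)) (fun s t => two s (cp s (ρ t))) R
    (fun a b h => by
      obtain ⟨u, hu, v, hv, h, e1, e2⟩ := (mR _ _).mp h
      exact (mR _ _).mpr ⟨v, hv, u, hu, hE _ _ h, e2, e1⟩)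
    (fun a b h => by
      obtain ⟨u, hu, v, hv, h', rfl, rfl⟩ := (mR _ _).mp h
      have a1 := hρ (sg u) ⟨u, hu, rfl⟩
      have a2 := hρ (sg v) ⟨v, hv, rfl⟩
      rw [sgcl _ a1.1 u a1.2, sgcl _ a2.1 v a2.2]
      exact hcl _ _ h')
    (fun s a b h n1 n2 => by
      obtain ⟨u, hu, v, hv, h', rfl, rfl⟩ := (mR _ _).mp h
      rw [eρ s u hu n1, eρ s v hv n2, cpe s u v (.single ⟨hu, n1⟩ ⟨hv, n2⟩ (.inl h'))])
  refine ⟨fun v => col (sg v), fun u hu v hv h => p1 _ _ ((mR _ _).mpr ⟨u, hu, v, hv, h, rfl, rfl⟩),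
    fun u hu w hw ne v vi hv => ?_⟩
  have main : ∀ v1 v2 v3, (v1 ∈ W ∧ E u v1 ∧ E w v1) → (v2 ∈ W ∧ E u v2 ∧ E w v2) →
      (v3 ∈ W ∧ E u v3 ∧ E w v3) → r v1 < r v2 → r v2 < r v3 → col (sg u) ≠ col (sg w) := by
    intro v1 v2 v3 h1 h2 h3 l1 l2
    have nu : ∀ y ∈ W, ∀ x, E u x ∧ E w x → sg y = sg x → y ≠ u ∧ y ≠ w := fun y hy x hx e =>
      ⟨fun c => hcl _ _ hx.1 (c ▸ sgcl y hy x e), fun c => hcl _ _ hx.2 (c ▸ sgcl y hy x e)⟩
    have same : ∀ B : Set V, v2 ∈ B → (∀ y ∈ B, y ∈ W ∧ sg y = sg v2) →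
        Conn H (B ∪ Wᶜ) v2 z0 → (∀ y ∈ B, sg y = sg v1 → r v1 < r y) →
        (∀ y ∈ B, sg y = sg v3 → r y < r v3) → False := by
      intro B b1 b2 b3 b4 b5
      refine hK.six {u} {w} Wᶜ {y | y ∈ W ∧ sg y = sg v1 ∧ r y ≤ r v1} B
        {y | y ∈ W ∧ sg y = sg v3 ∧ r v3 ≤ r y} u w z0 v1 v2 v3 (disjoint_singleton.mpr ne)
        (disjoint_singleton_left.mpr fun k => k hu) (disjoint_singleton_left.mpr fun k => k hw)
        (disjoint_left.mpr fun y k k' => (b4 y k' k.2.1).not_ge k.2.2)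
        (disjoint_left.mpr fun y k k' => ((l1.trans l2).trans_le k'.2.2).not_ge k.2.2)
        (disjoint_left.mpr fun y k k' => (b5 y k k'.2.1).not_ge k'.2.2) (fun y k k' => ?_)
        (.single (.inl rfl) (.inr ⟨h1.1, rfl, le_rfl⟩) (.inl h1.2.1))
        (.single (.inl rfl) (.inr b1) (.inl h2.2.1))
        (.single (.inl rfl) (.inr ⟨h3.1, rfl, le_rfl⟩) (.inl h3.2.1))
        (.single (.inl rfl) (.inr ⟨h1.1, rfl, le_rfl⟩) (.inl h1.2.2))
        (.single (.inl rfl) (.inr b1) (.inl h2.2.2))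
        (.single (.inl rfl) (.inr ⟨h3.1, rfl, le_rfl⟩) (.inl h3.2.2))
        (((down v1 h1.1 _ fun y a b c => by exact ⟨a, b, c⟩).symm Hs).mono (union_comm _ _).le)
        ((b3.symm Hs).mono (union_comm _ _).le)
        (((up v3 h3.1 _ fun y a b c => by exact ⟨a, b, c⟩).symm Hs).mono (union_comm _ _).le)
      have : y ∈ W ∧ y ≠ u ∧ y ≠ w := by
        rcases k' with k' | k' | k'
        · exact ⟨k'.1, nu y k'.1 _ h1.2 k'.2.1⟩
        · exact ⟨(b2 y k').1, nu y (b2 y k').1 _ h2.2 (b2 y k').2⟩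
        · exact ⟨k'.1, nu y k'.1 _ h3.2 k'.2.1⟩
      rcases k with k | k | k
      exacts [this.2.1 k, this.2.2 k, k this.1]
    have e1 : sg v1 = sg v2 := by_contra fun n =>
      same {y | y ∈ W ∧ sg y = sg v2 ∧ r y ≤ r v2} ⟨h2.1, rfl, le_rfl⟩ (fun y k => ⟨k.1, k.2.1⟩)
        (down v2 h2.1 _ fun y a b c => ⟨a, b, c⟩) (fun y k e => absurd (e.symm.trans k.2.1) n)
        fun y k _ => k.2.2.trans_lt l2
    have e3 : sg v3 = sg v2 := by_contra fun n =>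
      same {y | y ∈ W ∧ sg y = sg v2 ∧ r v2 ≤ r y} ⟨h2.1, rfl, le_rfl⟩ (fun y k => ⟨k.1, k.2.1⟩)
        (up v2 h2.1 _ fun y a b c => ⟨a, b, c⟩) (fun y k _ => l1.trans_le k.2.2)
        fun y k e => absurd (e.symm.trans k.2.1) n
    have du : u ∈ D (sg v2) := ⟨hu, fun e => (nu u hu v2 h2.2 e).1 rfl⟩
    have dw : w ∈ D (sg v2) := ⟨hw, fun e => (nu w hw v2 h2.2 e).2 rfl⟩
    have ne' : cp (sg v2) u ≠ cp (sg v2) w := by
      intro e
      have c : Conn H (D (sg v2)) w u := (show u ∈ cp (sg v2) w from e ▸ Conn.refl du)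
      have cz : Conn H ((D (sg v2) \ {u}) ∪ Wᶜ) w z0 := by
        rcases lt_or_gt_of_ne (hr.ne ne) with l | l
        · exact up w hw _ fun y a b k => ⟨⟨a, b.symm ▸ dw.2⟩, fun e => l.not_ge (e ▸ k)⟩
        · exact down w hw _ fun y a b k => ⟨⟨a, b.symm ▸ dw.2⟩, fun e => l.not_ge (e ▸ k)⟩
      refine hK.six {y | y ∈ W ∧ sg y = sg v2 ∧ r y < r v2} {y | y ∈ W ∧ sg y = sg v2 ∧ r v2 < r y}
        (D (sg v2) \ {u}) {u} {v2} Wᶜ v1 v3 w u v2 z0
        (disjoint_left.mpr fun y k k' => lt_asymm k.2.2 k'.2.2)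
        (disjoint_left.mpr fun y k k' => k'.1.2 k.2.1)
        (disjoint_left.mpr fun y k k' => k'.1.2 k.2.1)
        (disjoint_singleton.mpr (nu v2 h2.1 v2 h2.2 rfl).1.symm)
        (disjoint_singleton_left.mpr fun k => k hu) (disjoint_singleton_left.mpr fun k => k h2.1)
        (fun y k k' => ?_)
        (.single (.inl ⟨h1.1, e1, l1⟩) (.inr rfl) (.inl (hE _ _ h1.2.1)))
        (inseg' v1 h1.1 v2 h2.1 e1 _ fun y a b _ d => ?_)
        (down v1 h1.1 _ fun y a b c => ⟨a, b.trans e1, c.trans_lt l1⟩)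
        (.single (.inl ⟨h3.1, e3, l2⟩) (.inr rfl) (.inl (hE _ _ h3.2.1)))
        (inseg' v3 h3.1 v2 h2.1 e3 _ fun y a b d _ => ?_)
        (up v3 h3.1 _ fun y a b c => ⟨a, b.trans e3, l2.trans_le c⟩)
        (c.mono fun y k => by by_cases y = u <;> simp [*])
        (.single (.inl ⟨dw, ne.symm⟩) (.inr rfl) (.inl h2.2.2)) cz
      · rcases k with k | k | k <;> rcases k' with rfl | rfl | k'
        exacts [du.2 k.2.1, lt_irrefl _ k.2.2, k' k.1, du.2 k.2.1, lt_irrefl _ k.2.2, k' k.1,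
          k.2 rfl, k.1.2 rfl, k' k.1.1]
      · rw [max_eq_right l1.le] at d
        exact d.lt_or_eq.imp (fun k => ⟨a, b, k⟩) fun k => hr k
      · rw [min_eq_right l2.le] at d
        exact d.lt_or_eq.imp (fun k => ⟨a, b, k⟩) fun k => (hr k).symm
    have := htwo (sg v2) _ _ v2 ne'
      ⟨h2.1, rfl, ⟨u, du, rfl⟩, ⟨u, .refl du, v1, h1.1, e1, h1.2.1, l1⟩,
        u, .refl du, v3, h3.1, e3, h3.2.1, l2⟩
      ⟨h2.1, rfl, ⟨w, dw, rfl⟩, ⟨w, .refl dw, v1, h1.1, e1, h1.2.2, l1⟩,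
        w, .refl dw, v3, h3.1, e3, h3.2.2, l2⟩
    rw [Ne, p2 _ _ (sg v2) ((mR _ _).mpr ⟨u, hu, v2, h2.1, h2.2.1, rfl, rfl⟩)
      ((mR _ _).mpr ⟨w, hw, v2, h2.1, h2.2.2, rfl, rfl⟩), eρ _ u hu du.2, eρ _ w hw dw.2]
    exact this
  have n1 := lt_or_gt_of_ne (hr.ne (vi.ne (show (0 : Fin 3) ≠ 1 by decide)))
  have n2 := lt_or_gt_of_ne (hr.ne (vi.ne (show (0 : Fin 3) ≠ 2 by decide)))
  have n3 := lt_or_gt_of_ne (hr.ne (vi.ne (show (1 : Fin 3) ≠ 2 by decide)))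
  rcases n1 with a | a <;> rcases n2 with b | b <;> rcases n3 with c | c
  · exact main _ _ _ (hv 0) (hv 1) (hv 2) a c
  · exact main _ _ _ (hv 0) (hv 2) (hv 1) b c
  · exact main _ _ _ (hv 0) (hv 1) (hv 2) a c
  · exact main _ _ _ (hv 2) (hv 0) (hv 1) b a
  · exact main _ _ _ (hv 1) (hv 0) (hv 2) a b
  · exact main _ _ _ (hv 2) (hv 1) (hv 0) c a
  · exact main _ _ _ (hv 1) (hv 2) (hv 0) c b
  · exact main _ _ _ (hv 2) (hv 1) (hv 0) c a

end Pool.Agent.Lib.MP_c1785c_lc
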