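import Mathlib

/-!
Clique-planar representations of flat clustered graphs, and the encoding of instances.
-/

set_option autoImplicit false

namespace Pool.Agent.Lib.MP_c1785c_lc

/-- The closed axis-parallel rectangle of width `a` and height `b` with lower left corner `p`. -/
def rect (a b : ℝ) (p : ℝ × ℝ) : Set (ℝ × ℝ) := Set.Icc p.1 (p.1 + a) ×ˢ Set.Icc p.2 (p.2 + b)

/-- The inter-cluster edges of `G`, where `cl v` names the cluster of the vertex `v`. -/
def Inter {V C : Type} (G : SimpleGraph V) (cl : V → C) : Type :=
  {e : Sym2 V // e ∈ G.edgeSet ∧ ¬ (e.map cl).IsDiag}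

/-- A clique-planar representation. The vertex `v` is the translate `rect a b (p v)` of one fixed
rectangle; two rectangles intersect exactly when their vertices lie in the same cluster; an
inter-cluster edge `uv` is a simple curve from a boundary point of the rectangle of `u` to a
boundary point of the rectangle of `v`, and these are its only meetings with rectangles; two
different curves have no common point, except that for `share = true` they may have a common
end point. -/
structure Rep (share : Bool) {V C : Type} (G : SimpleGraph V) (cl : V → C) where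
  a : ℝ
  b : ℝ
  a_pos : 0 < a
  b_pos : 0 < b
  p : V → ℝ × ℝ
  meet : ∀ u v, (rect a b (p u) ∩ rect a b (p v)).Nonempty ↔ cl u = cl v
  arc : Inter G cl → unitInterval → ℝ × ℝ
  arc_cont : ∀ e, Continuous (arc e)
  arc_inj : ∀ e, Function.Injective (arc e)
  arc_ends : ∀ e : Inter G cl, ∃ u v, e.1 = s(u, v) ∧
    arc e 0 ∈ frontier (rect a b (p u)) ∧ arc e 1 ∈ frontier (rect a b (p v)) ∧
    ∀ t w, arc e t ∈ rect a b (p w) → (t = 0 ∧ w = u) ∨ (t = 1 ∧ w = v)
  arc_disj : ∀ e f, e ≠ f → ∀ s t, arc e s = arc f t →
    share = true ∧ (s = 0 ∨ s = 1) ∧ (t = 0 ∨ t = 1)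

/-- An instance: the list of the cluster names of the vertices `0, 1, ...` and a Boolean matrix. -/
abbrev Inst : Type := List ℕ × List (List Bool)

/-- The entry of the matrix in row `u` and column `v`. -/
def Inst.entry (I : Inst) (u v : ℕ) : Bool := (I.2.getD u []).getD v false

/-- The graph of an instance. -/
def Inst.graph (I : Inst) : SimpleGraph (Fin I.1.length) :=
  SimpleGraph.fromRel fun u v => I.entry u v = true

/-- The cluster of a vertex of an instance. -/
def Inst.cl (I : Inst) (v : Fin I.1.length) : ℕ := I.1[v]

/-- The instance is a flat c-graph with at most `k` clusters, each inducing a clique, and its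
matrix is the adjacency matrix of its graph. -/
def Inst.Valid (k : ℕ) (I : Inst) : Prop :=
  I.2.length = I.1.length ∧ (∀ row ∈ I.2, row.length = I.1.length) ∧
  (∀ u v : Fin I.1.length, I.entry u v = true ↔ I.graph.Adj u v) ∧
  (∀ u v : Fin I.1.length, u ≠ v → I.cl u = I.cl v → I.graph.Adj u v) ∧
  I.1.toFinset.card ≤ k

/-- The instance has a clique-planar representation. -/
def Inst.CliquePlanar (share : Bool) (I : Inst) : Prop := Nonempty (Rep share I.graph I.cl)

end Pool.Agent.Lib.MP_c1785c_lc
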