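import Mathlib

/-!
In every system of nine plane paths joining three points to three points two independent paths
meet; hence a graph whose independent edges are drawn disjointly has no `K_{3,3}` minor.
-/

set_option autoImplicit false

namespace Pool.Agent.Lib.MP_c1785c_lc

open Complex

lemma sweep (γ : ℝ → ℂ) (w : ℂ) : ∃ k : ℤ, ∀ (g : ℝ → ℂ) (c : ℂ), Continuous g →
    (∀ s, exp (g s) = c * (γ s - w)) →
    g 1 - g 0 = log (γ 1 - w) - log (γ 0 - w) + k * (2 * Real.pi * I) := by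
  by_cases h : ∃ (g : ℝ → ℂ) (c : ℂ), Continuous g ∧ ∀ s, exp (g s) = c * (γ s - w)
  · obtain ⟨g0, c0, hg0, h0⟩ := h
    have n0 : ∀ s, c0 ≠ 0 ∧ γ s - w ≠ 0 := fun s => mul_ne_zero_iff.mp (h0 s ▸ exp_ne_zero _)
    obtain ⟨k, hk⟩ := exp_eq_exp_iff_exists_int.mp
      (show exp (g0 1 - g0 0) = exp (log (γ 1 - w) - log (γ 0 - w)) by
        rw [exp_sub, exp_sub, h0, h0, exp_log (n0 1).2, exp_log (n0 0).2]
        field_simp [(n0 0).1, (n0 0).2])
    refine ⟨k, fun g c hg h => ?_⟩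
    have key : ∀ s, exp (g s - g0 s) = c / c0 := fun s => by
      rw [exp_sub, h, h0]
      field_simp [(n0 s).1, (n0 s).2]
    have hc : Continuous fun s => g s - g0 s := hg.sub hg0
    have := isCoveringMap_exp.const_of_comp hc (fun a a' => by
      apply Subtype.ext; simp only [key]) 1 0
    linear_combination this + hk
  · exact ⟨0, fun g c hg h' => absurd ⟨g, c, hg, h'⟩ h⟩

lemma flip_log (x y : ℂ) : ∃ m : ℤ, x ≠ y →
    log (x - y) - log (y - x) = (2 * m + 1) * (Real.pi * I) := by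
  by_cases h : x = y
  · exact ⟨0, fun h' => absurd h h'⟩
  obtain ⟨k, hk⟩ := exp_eq_exp_iff_exists_int.mp
    (show exp (log (x - y)) = exp (log (y - x) + Real.pi * I) by
      rw [exp_add, exp_log (sub_ne_zero.mpr h), exp_log (sub_ne_zero.mpr (Ne.symm h)),
        exp_pi_mul_I]
      ring)
  exact ⟨k, fun _ => by linear_combination hk⟩

theorem nine_paths (a b : Fin 3 → ℂ) (γ : ∀ i j, Path (a i) (b j))
    (h : ∀ i j k l, i ≠ k → j ≠ l → ∀ s t, γ i j s ≠ γ k l t) : False := by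
  choose K hK using fun (e : Fin 3 × Fin 3) (w : Fin 3 ⊕ Fin 3) =>
    sweep (γ e.1 e.2).extend (Sum.elim a b w)
  choose m hm using fun (u w : Fin 3 ⊕ Fin 3) => flip_log (Sum.elim a b u) (Sum.elim a b w)
  have hπ : (Real.pi * I : ℂ) ≠ 0 := mul_ne_zero (ofReal_ne_zero.mpr Real.pi_ne_zero) I_ne_zero
  have hsc : IsSimplyConnected (Set.univ : Set (ℝ × ℝ)) := by
    have : ContractibleSpace (Set.univ : Set (ℝ × ℝ)) :=
      (convex_univ : Convex ℝ (Set.univ : Set (ℝ × ℝ))).contractibleSpace ⟨0, trivial⟩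
    exact SimplyConnectedSpace.ofContractible _
  have main : ∀ i j k l, i ≠ k → j ≠ l →
      m (.inr j) (.inl k) + m (.inl k) (.inl i) + m (.inl i) (.inr l) + m (.inr l) (.inr j) + 2 =
        K (i, j) (.inr l) + K (k, l) (.inl i) - K (i, j) (.inl k) - K (k, l) (.inr j) ∧
      m (.inl k) (.inl i) + m (.inl i) (.inl k) = -1 ∧
      m (.inr l) (.inr j) + m (.inr j) (.inr l) = -1 ∧
      m (.inl i) (.inr l) + m (.inr l) (.inl i) = -1 := by
    intro i j k l hik hjl
    have hne : ∀ s t : ℝ, (γ i j).extend s - (γ k l).extend t ≠ 0 :=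
      fun s t => sub_ne_zero.mpr (h i j k l hik hjl _ _)
    obtain ⟨f, hf, hfe⟩ := exists_continuousOn_eqOn_exp_comp hsc isOpen_univ
      (g := fun p : ℝ × ℝ => (γ i j).extend p.1 - (γ k l).extend p.2)
      (Continuous.continuousOn (by fun_prop)) (by
        rintro ⟨p, -, hp⟩; exact hne _ _ hp)
    have hf' : Continuous f := continuousOn_univ.mp hf
    have he : ∀ s t, exp (f (s, t)) = (γ i j).extend s - (γ k l).extend t :=
      fun s t => hfe (Set.mem_univ _)
    have s1 := hK (i, j) (.inl k) (fun s => f (s, 0)) 1 (by fun_prop) (fun s => by simp [he])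
    have s2 := hK (k, l) (.inr j) (fun t => f (1, t)) (-1) (by fun_prop) (fun s => by simp [he])
    have s3 := hK (i, j) (.inr l) (fun s => f (s, 1)) 1 (by fun_prop) (fun s => by simp [he])
    have s4 := hK (k, l) (.inl i) (fun t => f (0, t)) (-1) (by fun_prop) (fun s => by simp [he])
    have n1 := sub_ne_zero.mp (hne 0 0)
    have n2 := sub_ne_zero.mp (hne 0 1)
    have n3 := sub_ne_zero.mp (hne 1 0)
    have n4 := sub_ne_zero.mp (hne 1 1)
    simp only [Path.extend_zero, Path.extend_one, Sum.elim_inl, Sum.elim_inr]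
      at s1 s2 s3 s4 n1 n2 n3 n4
    have m1 := hm (.inr j) (.inl k) n3
    have m2 := hm (.inl k) (.inl i) n1.symm
    have m3 := hm (.inl i) (.inr l) n2
    have m4 := hm (.inr l) (.inr j) n4.symm
    have m5 := hm (.inl i) (.inl k) n1
    have m6 := hm (.inr j) (.inr l) n4
    have m7 := hm (.inr l) (.inl i) n2.symm
    simp only [Sum.elim_inl, Sum.elim_inr] at m1 m2 m3 m4 m5 m6 m7
    have two : (2 : ℂ) * (Real.pi * I) ≠ 0 := mul_ne_zero two_ne_zero hπ
    refine ⟨?_, ?_, ?_, ?_⟩ <;> apply Int.cast_injective (α := ℂ) <;>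
      apply mul_right_cancel₀ two <;> push_cast
    · linear_combination -m1 - m2 - m3 - m4 - s1 - s2 + s3 + s4
    · linear_combination -m2 - m5
    · linear_combination -m4 - m6
    · linear_combination -m3 - m7
  have e := fun (i k : Fin 3) (hik : i ≠ k) =>
    And.intro (main i 0 k 1 hik (by decide)) (And.intro (main i 0 k 2 hik (by decide))
    (And.intro (main i 1 k 0 hik (by decide)) (And.intro (main i 1 k 2 hik (by decide))
    (And.intro (main i 2 k 0 hik (by decide)) (main i 2 k 1 hik (by decide))))))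
  have e1 := e 0 1 (by decide)
  have e2 := e 0 2 (by decide)
  have e3 := e 1 2 (by decide)
  have e4 := e 1 0 (by decide)
  have e5 := e 2 0 (by decide)
  have e6 := e 2 1 (by decide)
  omega

variable {V : Type}

/-- `x` and `y` are joined by a walk of `H` inside `U`. -/
def Conn (H : V → V → Prop) (U : Set V) (x y : V) : Prop :=
  x ∈ U ∧ Relation.ReflTransGen (fun u v => H u v ∧ v ∈ U) x y

/-- No `K_{3,3}` minor. -/
def NoK33 (H : V → V → Prop) : Prop :=
  ∀ (A B : Fin 3 → Set V) (a b : Fin 3 → V), (∀ i k, i ≠ k → Disjoint (A i) (A k)) →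
    (∀ i k, i ≠ k → Disjoint (B i) (B k)) → (∀ i j, Disjoint (A i) (B j)) →
    (∀ i j, Conn H (A i ∪ B j) (a i) (b j)) → False

theorem noK33_of_sets {H : V → V → Prop} (hr : ∀ v, H v v) (q : V → ℝ × ℝ)
    (T : V → V → Set (ℝ × ℝ)) (hT : ∀ u v, H u v → JoinedIn (T u v) (q u) (q v))
    (hd : ∀ u v x y, H u v → H x y → u ≠ x → u ≠ y → v ≠ x → v ≠ y →
      Disjoint (T u v) (T x y)) : NoK33 H := by
  intro A B a b hA hB hAB hc
  let S : Set V → Set (ℝ × ℝ) := fun U => {z | ∃ u ∈ U, ∃ v ∈ U, H u v ∧ z ∈ T u v}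
  have hj : ∀ U x y, Conn H U x y → y ∈ U ∧ JoinedIn (S U) (q x) (q y) := by
    rintro U x y ⟨hx, h⟩
    induction h with
    | refl => exact ⟨hx, (hT x x (hr x)).mono fun z hz => ⟨x, hx, x, hx, hr x, hz⟩⟩
    | tail _ h2 ih => exact ⟨h2.2, ih.2.trans ((hT _ _ h2.1).mono
        fun z hz => ⟨_, ih.1, _, h2.2, h2.1, hz⟩)⟩
  choose γ hγ using fun i j => (hj _ _ _ (hc i j)).2
  let φ := Complex.equivRealProdCLM.symm
  refine nine_paths (fun i => φ (q (a i))) (fun j => φ (q (b j)))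
    (fun i j => (γ i j).map φ.continuous) fun i j k l hik hjl s t hst => ?_
  have e : γ i j s = γ k l t := φ.injective hst
  obtain ⟨u, hu, v, hv, h1, h2⟩ := hγ i j s
  obtain ⟨x, hx, y, hy, h3, h4⟩ := hγ k l t
  have dj : Disjoint (A i ∪ B j) (A k ∪ B l) := by
    rw [Set.disjoint_union_left, Set.disjoint_union_right, Set.disjoint_union_right]
    exact ⟨⟨hA _ _ hik, hAB _ _⟩, (hAB _ _).symm, hB _ _ hjl⟩
  exact Set.disjoint_left.mp (hd u v x y h1 h3 (dj.ne_of_mem hu hx) (dj.ne_of_mem hu hy)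
    (dj.ne_of_mem hv hx) (dj.ne_of_mem hv hy)) h2 (e ▸ h4)

end Pool.Agent.Lib.MP_c1785c_lc
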