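import Pool.Agent.Lib.MP_c1785c_lc.Defs
import Pool.Agent.Lib.MP_c1785c_lc.Topo

/-!
From a clique-planar representation to linear orders of the clusters such that the inter-cluster
edges together with the paths along these orders have no `K_{3,3}` minor.
-/

set_option autoImplicit false

namespace Pool.Agent.Lib.MP_c1785c_lc

open Set

variable {V C : Type}

/-- `w` lies strictly between `u` and `v`. -/
def Btw (r : V → ℝ) (u w v : V) : Prop := (r u < r w ∧ r w < r v) ∨ (r v < r w ∧ r w < r u)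

/-- Edges of `E`, and pairs that are equal or consecutive in their cluster. -/
def Hrel (E : V → V → Prop) (cl : V → C) (r : V → ℝ) (u v : V) : Prop :=
  E u v ∨ (cl u = cl v ∧ ∀ w, cl w = cl u → ¬ Btw r u w v)

lemma exists_rank [Fintype V] {L : Type} [LinearOrder L] (key : V → L) :
    ∃ rk : V → ℕ, (∀ v, rk v < Fintype.card V) ∧ ∀ u v, key u < key v → rk u < rk v := by
  classical
  refine ⟨fun v => (Finset.univ.filter fun w => key w < key v).card, fun v => ?_, fun u v h => ?_⟩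
  · exact Finset.card_lt_card (Finset.filter_ssubset.mpr ⟨v, Finset.mem_univ _, lt_irrefl _⟩)
  · refine Finset.card_lt_card ⟨fun w hw => ?_, fun hs => ?_⟩
    · simp only [Finset.mem_filter, Finset.mem_univ, true_and] at hw ⊢
      exact hw.trans h
    · simpa using hs (show u ∈ _ by simpa using h)

lemma exists_r [Fintype V] (x : V → ℝ) {a : ℝ} (ha : 0 < a) : ∃ r : V → ℝ,
    Function.Injective r ∧ (∀ v, x v ≤ r v ∧ r v ≤ x v + a) ∧ ∀ u v, r u < r v → x u ≤ x v := by
  let key : V → ℝ ×ₗ Fin (Fintype.card V) := fun v => toLex (x v, Fintype.equivFin V v)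
  obtain ⟨rk, h1, h2⟩ := exists_rank key
  have h3 : ∀ u v, key u < key v → x u ≤ x v ∧
      x u + a * (rk u / Fintype.card V) < x v + a * (rk v / Fintype.card V) := fun u v h => by
    have e1 : x u ≤ x v := (Prod.Lex.toLex_lt_toLex.mp h).elim le_of_lt fun h => h.1.le
    have e2 : (0 : ℝ) < Fintype.card V := by exact_mod_cast (Nat.zero_le _).trans_lt (h1 u)
    have e3 : (rk u : ℝ) < rk v := by exact_mod_cast h2 u v h
    exact ⟨e1, add_lt_add_of_le_of_lt e1 (by gcongr)⟩
  refine ⟨fun v => x v + a * (rk v / Fintype.card V), fun u v h => ?_, fun v => ?_, fun u v h => ?_⟩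
  · rcases lt_trichotomy (key u) (key v) with c | c | c
    · exact absurd h (h3 _ _ c).2.ne
    · exact (Fintype.equivFin V).injective (congrArg (fun z => (ofLex z).2) c)
    · exact absurd h (h3 _ _ c).2.ne'
  · have e2 : (0 : ℝ) < Fintype.card V := by exact_mod_cast (Nat.zero_le _).trans_lt (h1 v)
    have e3 : (rk v : ℝ) ≤ Fintype.card V := by exact_mod_cast (h1 v).le
    have e4 : (rk v : ℝ) / Fintype.card V ≤ 1 := (div_le_one e2).mpr e3
    have e5 : (0 : ℝ) ≤ rk v / Fintype.card V := by positivity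
    constructor <;> nlinarith
  · rcases lt_trichotomy (key u) (key v) with c | c | c
    · exact (h3 _ _ c).1
    · exact (congrArg (fun z => (ofLex z).1) c).le
    · exact absurd h (h3 _ _ c).2.not_gt

lemma no_cross {M xv ru rv Tu Tv s τ s' τ' l m : ℝ} (h1 : ru ≤ M) (h2 : xv ≤ rv) (h3 : ru < rv)
    (l0 : 0 < l) (l1 : l ≤ 1) (m0 : 0 < m) (m1 : m ≤ 1) (t0 : 0 ≤ τ) (t0' : 0 ≤ τ')
    (t1 : τ ≤ Tu) (t1' : τ' ≤ Tv) (s1 : s ≤ M) (s1' : xv ≤ s') (c : s < xv ∨ Tv < τ)
    (c' : M < s' ∨ Tu < τ') (e1 : l * τ = m * τ') (e2 : ru + l * (s - ru) = rv + m * (s' - rv)) :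
    False := by
  rcases c with c | c <;> rcases c' with c' | c'
  · have a1 : ru + l * (s - ru) < rv := by nlinarith
    have a2 : ru + l * (s - ru) < s' := by nlinarith
    nlinarith
  · have : m < l := by nlinarith
    nlinarith
  · have : l < m := by nlinarith
    nlinarith
  · linarith

theorem Rep.noK33 [Fintype V] {sh : Bool} {G : SimpleGraph V} {cl : V → C} (D : Rep sh G cl) :
    ∃ r : V → ℝ, Function.Injective r ∧
      NoK33 (Hrel (fun u v => G.Adj u v ∧ cl u ≠ cl v) cl r) := by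
  obtain ⟨r, hr, hx, hm⟩ := exists_r (fun v => (D.p v).1) D.a_pos
  refine ⟨r, hr, ?_⟩
  set R : V → Set (ℝ × ℝ) := fun v => rect D.a D.b (D.p v) with hR
  have memR : ∀ v z, z ∈ R v ↔ ((D.p v).1 ≤ z.1 ∧ z.1 ≤ (D.p v).1 + D.a) ∧
      (D.p v).2 ≤ z.2 ∧ z.2 ≤ (D.p v).2 + D.b := fun v z => Iff.rfl
  have cvx : ∀ v, Convex ℝ (R v) := fun v => (convex_Icc _ _).prod (convex_Icc _ _)
  have clo : ∀ v, frontier (R v) ⊆ R v := fun v =>
    (isClosed_Icc.prod isClosed_Icc).frontier_subset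
  have meet : ∀ u v z, z ∈ R u → z ∈ R v → cl u = cl v := fun u v z h1 h2 =>
    (D.meet u v).mp ⟨z, h1, h2⟩
  let h : V → ℝ := fun v => sSup ((fun w => (D.p w).2) '' {w | cl w = cl v})
  have hh : ∀ u v, cl u = cl v → h u = h v := fun u v e => by simp only [h, e]
  have hy : ∀ v, (D.p v).2 ≤ h v ∧ h v ≤ (D.p v).2 + D.b := fun v => by
    refine ⟨le_csSup (toFinite _).bddAbove ⟨v, rfl, rfl⟩, csSup_le ⟨_, v, rfl, rfl⟩ ?_⟩
    rintro _ ⟨w, hw, rfl⟩
    obtain ⟨z, h1, h2⟩ := (D.meet w v).mpr hw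
    exact h1.2.1.trans h2.2.2
  let q : V → ℝ × ℝ := fun v => (r v, h v)
  have qR : ∀ v, q v ∈ R v := fun v => ⟨hx v, hy v⟩
  let P : V → Set (ℝ × ℝ) := fun v => {z | z = q v ∨ ∃ p ∈ R v, (∀ w, p ∈ R w → w = v) ∧
    ∃ l : ℝ, 0 < l ∧ l ≤ 1 ∧ z.1 = r v + l * (p.1 - r v) ∧ z.2 = h v + l * (p.2 - h v)}
  have segP : ∀ v p, p ∈ R v → (∀ w, p ∈ R w → w = v) → segment ℝ (q v) p ⊆ P v := by
    rintro v p h1 h2 z ⟨m, l, m0, l0, ml, rfl⟩
    rcases l0.eq_or_lt with c | c
    · left; subst c; simp [show m = 1 by linarith]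
    · right
      refine ⟨p, h1, h2, l, c, by linarith, ?_, ?_⟩ <;> simp [q, show m = 1 - l by linarith] <;>
        ring
  have PR : ∀ v, P v ⊆ R v := by
    rintro v z (rfl | ⟨p, h1, -, l, l0, l1, e1, e2⟩)
    · exact qR v
    · have := cvx v (qR v) h1 (show 0 ≤ 1 - l by linarith) l0.le (by ring)
      convert this using 1
      ext
      · simp [q, e1]; ring
      · simp [q, e2]; ring
  have L1 : ∀ u w z, cl u = cl w → z ∈ P w → z.2 = h w →
      (r w < r u → z.1 < r u) ∧ (r u < r w → r u < z.1) := by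
    rintro u w z c (rfl | ⟨p, h1, h2, l, l0, l1, e1, e2⟩) hz
    · exact ⟨id, id⟩
    have e3 : p.2 = h w := by
      have : l * (p.2 - h w) = 0 := by linarith
      have := (mul_eq_zero.mp this).resolve_left l0.ne'
      linarith
    have n : u ≠ w → ¬ ((D.p u).1 ≤ p.1 ∧ p.1 ≤ (D.p u).1 + D.a) := fun ne k =>
      ne (h2 u ⟨k, by rw [e3, ← hh u w c]; exact hy u⟩)
    have := (memR w p).mp h1
    constructor <;> intro k
    · have n1 := n fun e => k.ne' (congrArg r e)
      have n2 := hm _ _ k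
      have : p.1 < r u := by
        by_contra n3
        exact n1 ⟨by linarith [(hx u).1], by linarith [this.1.2]⟩
      nlinarith
    · have n1 := n fun e => k.ne (congrArg r e)
      have n2 := hm _ _ k
      have : r u < p.1 := by
        by_contra n3
        exact n1 ⟨by linarith [this.1.1], by linarith [(hx u).2]⟩
      nlinarith
  have F2' : ∀ u v z, r u < r v → z ∈ P u → z ∈ P v → False := by
    intro u v z k hu hv
    have c := meet u v z (PR u hu) (PR v hv)
    have ne : u ≠ v := fun e => k.ne (congrArg r e)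
    rcases hu with rfl | ⟨p, h1, h2, l, l0, l1, e1, e2⟩
    · exact ((L1 u v _ c hv (hh u v c)).2 k).ne rfl
    rcases hv with rfl | ⟨p', h1', h2', m, m0, m1, e1', e2'⟩
    · exact ((L1 v u _ c.symm (.inr ⟨p, h1, h2, l, l0, l1, e1, e2⟩) (hh v u c.symm)).1 k).ne rfl
    have n : ¬ p ∈ R v := fun k => ne (h2 v k).symm
    have n' : ¬ p' ∈ R u := fun k => ne (h2' u k)
    rw [memR] at h1 h1' n n'
    have y1 := hy u
    have y2 := hy v
    have x0 := hm u v k
    rw [← hh u v c] at e2' y2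
    rcases le_total (h u) p.2 with t | t
    · have t' : h u ≤ p'.2 := by nlinarith
      refine no_cross (Tu := (D.p u).2 + D.b - h u) (Tv := (D.p v).2 + D.b - h u)
        (τ := p.2 - h u) (τ' := p'.2 - h u) (hx u).2 (hx v).1 k l0 l1 m0 m1 (by linarith)
        (by linarith) (by linarith [h1.2.2]) (by linarith [h1'.2.2]) h1.1.2 h1'.1.1 ?_ ?_
        (by linarith) (by linarith)
      · by_contra k
        push Not at k
        exact n ⟨⟨k.1, by linarith [h1.1.2]⟩, by linarith [y2.1], by linarith [k.2]⟩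
      · by_contra k
        push Not at k
        exact n' ⟨⟨by linarith [h1'.1.1], k.1⟩, by linarith [y1.1], by linarith [k.2]⟩
    · have t' : p'.2 ≤ h u := by nlinarith
      refine no_cross (Tu := h u - (D.p u).2) (Tv := h u - (D.p v).2)
        (τ := h u - p.2) (τ' := h u - p'.2) (hx u).2 (hx v).1 k l0 l1 m0 m1 (by linarith)
        (by linarith) (by linarith [h1.2.1]) (by linarith [h1'.2.1]) h1.1.2 h1'.1.1 ?_ ?_
        (by linarith) (by linarith)
      · by_contra k
        push Not at k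
        exact n ⟨⟨k.1, by linarith [h1.1.2]⟩, by linarith [k.2], by linarith [y2.2]⟩
      · by_contra k
        push Not at k
        exact n' ⟨⟨by linarith [h1'.1.1], k.1⟩, by linarith [k.2], by linarith [y1.2]⟩
  have F2 : ∀ u v z, u ≠ v → z ∈ P u → z ∈ P v → False := fun u v z ne hu hv =>
    (lt_or_gt_of_ne (hr.ne ne)).elim (fun k => F2' u v z k hu hv) fun k => F2' v u z k hv hu
  have sg : ∀ u v z, cl u = cl v → z ∈ segment ℝ (q u) (q v) →
      z.2 = h u ∧ ((r u ≤ z.1 ∧ z.1 ≤ r v) ∨ (r v ≤ z.1 ∧ z.1 ≤ r u)) := by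
    rintro u v z c ⟨m, l, m0, l0, ml, rfl⟩
    simp only [q, Prod.smul_mk, Prod.mk_add_mk, smul_eq_mul, ← hh u v c]
    refine ⟨by rw [← add_mul, ml, one_mul], ?_⟩
    obtain rfl : m = 1 - l := by linarith
    rcases le_total (r u) (r v) with k | k
    · left; constructor <;> nlinarith
    · right; constructor <;> nlinarith
  have F3 : ∀ u v z, cl u = cl v → z ∈ segment ℝ (q u) (q v) → z ∈ R u ∨ z ∈ R v := by
    intro u v z c hz
    obtain ⟨e, k⟩ := sg u v z c hz
    obtain ⟨o, o1, o2⟩ := (D.meet u v).mpr c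
    have y1 := hy u
    have y2 := hy v
    rw [← hh u v c] at y2
    rw [← e] at y1 y2
    have := o1.1.1; have := o1.1.2; have := o2.1.1; have := o2.1.2
    have := hx u; have := hx v
    by_contra n
    simp only [memR, y1, y2, and_true, not_or, not_and_or, not_le] at n
    rcases k with k | k <;> rcases n with ⟨n | n, n' | n'⟩ <;> linarith
  have F4 : ∀ u v w z, cl u = cl v → (∀ w, cl w = cl u → ¬ Btw r u w v) → w ≠ u → w ≠ v →
      z ∈ segment ℝ (q u) (q v) → z ∈ P w → False := by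
    intro u v w z c nb n1 n2 hz hw
    have c1 : cl w = cl u :=
      (F3 u v z c hz).elim (meet w u z (PR w hw)) fun k => (meet w v z (PR w hw) k).trans c.symm
    obtain ⟨e, k⟩ := sg u v z c hz
    have a1 := L1 u w z c1.symm hw (e.trans (hh w u c1).symm)
    have a2 := L1 v w z (c.symm.trans c1.symm) hw (e.trans (hh w u c1).symm)
    have nb := nb w c1
    unfold Btw at nb
    rcases lt_or_gt_of_ne (hr.ne n1) with b1 | b1 <;>
      rcases lt_or_gt_of_ne (hr.ne n2) with b2 | b2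
    · rcases k with k | k <;> linarith [a1.1 b1, a2.1 b2]
    · exact nb (.inr ⟨b2, b1⟩)
    · exact nb (.inl ⟨b1, b2⟩)
    · rcases k with k | k <;> linarith [a1.2 b1, a2.2 b2]
  have F5 : ∀ (e : Inter G cl) t w, D.arc e t ∈ R w → w ∈ e.1 := fun e t w k => by
    obtain ⟨u, v, e1, -, -, e2⟩ := D.arc_ends e
    rcases e2 t w k with ⟨-, rfl⟩ | ⟨-, rfl⟩ <;> simp [e1]
  let A : V → V → Set (ℝ × ℝ) := fun u v => {z | ∃ e : Inter G cl, e.1 = s(u, v) ∧
    ∃ t, D.arc e t = z}
  let S : V → V → Set (ℝ × ℝ) := fun u v => {z | cl u = cl v ∧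
    (∀ w, cl w = cl u → ¬ Btw r u w v) ∧ z ∈ segment ℝ (q u) (q v)}
  have G1 : ∀ u v w z, w ≠ u → w ≠ v → z ∈ A u v → z ∈ R w → False := by
    rintro u v w _ n1 n2 ⟨e, he, t, rfl⟩ k
    have := F5 e t w k
    simp [he, n1, n2] at this
  have G2 : ∀ u v x y z, u ≠ x → u ≠ y → v ≠ x → v ≠ y → z ∈ A u v → z ∈ A x y → False := by
    rintro u v x y _ n1 n2 n3 n4 ⟨e, he, s, rfl⟩ k
    obtain ⟨f, hf, t, ht⟩ := id k
    have ne : e ≠ f := fun c => by
      rw [c, hf] at he
      have : u ∈ s(x, y) := by simp [he]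
      simp [n1, n2] at this
    obtain ⟨u', v', e1, e2, e3, -⟩ := D.arc_ends e
    have : ∃ w ∈ e.1, D.arc e s ∈ R w := by
      rcases (D.arc_disj e f ne s t ht.symm).2.1 with rfl | rfl
      · exact ⟨u', by simp [e1], clo _ e2⟩
      · exact ⟨v', by simp [e1], clo _ e3⟩
    obtain ⟨w, hw, k'⟩ := this
    rw [he] at hw
    rcases Sym2.mem_iff.mp hw with rfl | rfl
    · exact G1 x y w _ n1 n2 k k'
    · exact G1 x y w _ n3 n4 k k'
  have G3 : ∀ u v x y z, u ≠ x → u ≠ y → v ≠ x → v ≠ y → z ∈ A u v → z ∈ S x y → False :=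
    fun u v x y z n1 n2 n3 n4 k k' => (F3 x y z k'.1 k'.2.2).elim
      (G1 u v x z n1.symm n3.symm k) (G1 u v y z n2.symm n4.symm k)
  have G4 : ∀ u v x y z, u ≠ x → u ≠ y → v ≠ x → v ≠ y → z ∈ S u v → z ∈ S x y → False := by
    rintro u v x y z n1 n2 n3 n4 ⟨c, nb, k⟩ ⟨c', nb', k'⟩
    have c1 : cl x = cl u := by
      rcases F3 u v z c k with a | a <;> rcases F3 x y z c' k' with b | b
      · exact meet _ _ _ b a
      · exact c'.trans (meet _ _ _ b a)
      · exact (meet _ _ _ b a).trans c.symm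
      · exact (c'.trans (meet _ _ _ b a)).trans c.symm
    have a1 := nb x c1
    have a2 := nb y (c'.symm.trans c1)
    have a3 := nb' u c1.symm
    have a4 := nb' v (c.symm.trans c1.symm)
    have b1 := hr.ne n1
    have b2 := hr.ne n2
    have b3 := hr.ne n3
    have b4 := hr.ne n4
    have b5 := (sg u v z c k).2
    have b6 := (sg x y z c' k').2
    unfold Btw at a1 a2 a3 a4
    grind
  refine noK33_of_sets (fun v => .inr ⟨rfl, fun w _ k => ?_⟩) q
    (fun u v => P u ∪ P v ∪ (A u v ∪ S u v)) ?_ ?_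
  · rcases k with k | k <;> exact lt_asymm k.1 k.2
  · rintro u v (⟨k, c⟩ | k)
    · let e : Inter G cl := ⟨s(u, v), k, by simpa using c⟩
      have j : JoinedIn (A u v) (D.arc e 0) (D.arc e 1) :=
        ⟨⟨⟨D.arc e, D.arc_cont e⟩, rfl, rfl⟩, fun t => ⟨e, rfl, t, rfl⟩⟩
      obtain ⟨u', v', e1, e2, e3, e4⟩ := D.arc_ends e
      have j0 : JoinedIn (P u') (q u') (D.arc e 0) := JoinedIn.of_segment_subset
        (segP _ _ (clo _ e2) fun w k => (e4 0 w k).elim (·.2) fun k => absurd k.1 zero_ne_one)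
      have j1 : JoinedIn (P v') (q v') (D.arc e 1) := JoinedIn.of_segment_subset
        (segP _ _ (clo _ e3) fun w k => (e4 1 w k).elim (fun k => absurd k.1 one_ne_zero) (·.2))
      rcases Sym2.eq_iff.mp e1 with ⟨rfl, rfl⟩ | ⟨rfl, rfl⟩
      · exact ((j0.mono fun z k => .inl (.inl k)).trans (j.mono fun z k => .inr (.inl k))).trans
          (j1.symm.mono fun z k => .inl (.inr k))
      · exact ((j1.mono fun z k => .inl (.inl k)).trans
          (j.symm.mono fun z k => .inr (.inl k))).trans (j0.symm.mono fun z k => .inl (.inr k))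
    · exact JoinedIn.of_segment_subset fun z hz => .inr (.inr ⟨k.1, k.2, hz⟩)
  · intro u v x y _ _ n1 n2 n3 n4
    rw [disjoint_left]
    rintro z ((k | k) | k | k) ((k' | k') | k' | k')
    · exact F2 _ _ z n1 k k'
    · exact F2 _ _ z n2 k k'
    · exact G1 x y u z n1 n2 k' (PR _ k)
    · exact F4 x y u z k'.1 k'.2.1 n1 n2 k'.2.2 k
    · exact F2 _ _ z n3 k k'
    · exact F2 _ _ z n4 k k'
    · exact G1 x y v z n3 n4 k' (PR _ k)
    · exact F4 x y v z k'.1 k'.2.1 n3 n4 k'.2.2 k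
    · exact G1 u v x z n1.symm n3.symm k (PR _ k')
    · exact G1 u v y z n2.symm n4.symm k (PR _ k')
    · exact G2 u v x y z n1 n2 n3 n4 k k'
    · exact G3 u v x y z n1 n2 n3 n4 k k'
    · exact F4 u v x z k.1 k.2.1 n1.symm n3.symm k.2.2 k'
    · exact F4 u v y z k.1 k.2.1 n2.symm n4.symm k.2.2 k'
    · exact G3 x y u v z n1.symm n3.symm n2.symm n4.symm k' k
    · exact G4 u v x y z n1 n2 n3 n4 k k'

end Pool.Agent.Lib.MP_c1785c_lc
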