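import Pool.Agent.Lib.MP_c1785c_lc.GeoNo

/-!
From a levelled planar drawing of the inter-cluster edges to a clique-planar representation.
-/

set_option autoImplicit false

namespace Pool.Agent.Lib.MP_c1785c_lc

open Set

noncomputable def sA (N i j : ℝ) (p : Bool) : ℝ := -i - j / (2 * N) + cond p N (1 / 2)

noncomputable def sB (N i j : ℝ) (p : Bool) : ℝ := 3 * N + j + i / (2 * N) + cond p 0 (N - 1 / 2)

noncomputable def ht (N i j : ℝ) (p : Bool) (x : ℝ) : ℝ :=
  cond p (min (i + N + 3 * (x - sA N i j p)) (j + N + 3 * (sB N i j p - x)))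
    (max (i - 3 * (x - sA N i j p)) (j - 3 * (sB N i j p - x)))

lemma frac {N : ℝ} {i : ℕ} (h : (i : ℝ) < N) :
    0 ≤ (i : ℝ) ∧ 0 ≤ i / (2 * N) ∧ i / (2 * N) < 1 / 2 := by
  have h0 : (0 : ℝ) ≤ i := Nat.cast_nonneg i
  have : 0 < N := h0.trans_lt h
  refine ⟨h0, by positivity, ?_⟩
  rw [div_lt_iff₀ (by positivity)]
  linarith

lemma tri (i k : ℕ) : k = i ∨ (k : ℝ) + 1 ≤ i ∨ (i : ℝ) + 1 ≤ k := by
  rcases lt_trichotomy k i with h | h | h
  · exact .inr (.inl (by exact_mod_cast h))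
  · exact .inl h
  · exact .inr (.inr (by exact_mod_cast h))

variable {N : ℝ} {i j k i' j' : ℕ} {p p' : Bool} {x : ℝ}

lemma sA_lt (hN : 1 ≤ N) (hi : (i : ℝ) < N) (hj : (j : ℝ) < N) :
    sA N i j p + N < sB N i j p := by
  have := frac hi
  have := frac hj
  cases p <;> simp only [sA, sB, cond] <;> linarith

lemma inA (hN : 1 ≤ N) (hi : (i : ℝ) < N) (hj : (j : ℝ) < N) (hk : (k : ℝ) < N)
    (h1 : sA N i j p ≤ x) (h : (x, ht N i j p x) ∈ rect N N (-k, k)) :
    x = sA N i j p ∧ k = i := by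
  obtain ⟨⟨a1, a2⟩, a3, a4⟩ := h
  have := frac hi
  have := frac hj
  have := frac hk
  cases p <;> simp only [ht, sA, sB, cond, min_le_iff, le_max_iff] at * <;>
    rcases tri i k with rfl | c | c <;> grind

lemma inB (hN : 1 ≤ N) (hi : (i : ℝ) < N) (hj : (j : ℝ) < N) (hk : (k : ℝ) < N)
    (h1 : x ≤ sB N i j p) (h : (x, ht N i j p x) ∈ rect N N (3 * N + k, k)) :
    x = sB N i j p ∧ k = j := by
  obtain ⟨⟨a1, a2⟩, a3, a4⟩ := h
  have := frac hi
  have := frac hj
  have := frac hk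
  cases p <;> simp only [ht, sA, sB, cond, min_le_iff, le_max_iff] at * <;>
    rcases tri j k with rfl | c | c <;> grind

lemma fr {q z : ℝ × ℝ} (h1 : q.1 ≤ z.1) (h2 : z.1 ≤ q.1 + N) (hN : 1 ≤ N)
    (h3 : z.2 = q.2 ∨ z.2 = q.2 + N) : z ∈ frontier (rect N N q) := by
  refine ⟨subset_closure ⟨⟨h1, h2⟩, ?_⟩, ?_⟩
  · rcases h3 with h | h <;> constructor <;> linarith
  · rw [rect, interior_prod_eq, interior_Icc, interior_Icc]
    rintro ⟨-, a, b⟩
    rcases h3 with h | h <;> linarith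

lemma frA (hN : 1 ≤ N) (hi : (i : ℝ) < N) (hj : (j : ℝ) < N) :
    (sA N i j p, ht N i j p (sA N i j p)) ∈ frontier (rect N N (-i, i)) := by
  have := frac hi
  have := frac hj
  refine fr ?_ ?_ hN ?_ <;> cases p <;> simp only [ht, sA, sB, cond] <;> grind

lemma frB (hN : 1 ≤ N) (hi : (i : ℝ) < N) (hj : (j : ℝ) < N) :
    (sB N i j p, ht N i j p (sB N i j p)) ∈ frontier (rect N N (3 * N + j, j)) := by
  have := frac hi
  have := frac hj
  refine fr ?_ ?_ hN ?_ <;> cases p <;> simp only [ht, sA, sB, cond] <;> grind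

lemma page_eq (hi : (i : ℝ) < N) (hj : (j : ℝ) < N) (hi' : (i' : ℝ) < N) (hj' : (j' : ℝ) < N)
    (h1 : sA N i j p ≤ x) (h2 : x ≤ sB N i j p) (h1' : sA N i' j' p' ≤ x)
    (h2' : x ≤ sB N i' j' p') (h : ht N i j p x = ht N i' j' p' x) : p = p' := by
  have := frac hi
  have := frac hj
  have := frac hi'
  have := frac hj'
  cases p <;> cases p' <;> simp only [ht, cond] at h <;> grind

lemma nest (hN : 1 ≤ N) (h1 : i ≤ i') (h2 : j ≤ j') (h : ht N i j p x = ht N i' j' p x) :
    i = i' ∧ j = j' := by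
  by_contra n
  have m : ∀ {a b : ℕ}, a ≤ b → (a : ℝ) ≤ b ∧ (a : ℝ) / (2 * N) ≤ b / (2 * N) ∧
      (a = b ∨ ((a : ℝ) < b ∧ (a : ℝ) / (2 * N) < b / (2 * N))) := fun {a b} h => by
    have h' : (a : ℝ) ≤ b := by exact_mod_cast h
    refine ⟨h', by gcongr, h.eq_or_lt.imp id fun h => ?_⟩
    have h' : (a : ℝ) < b := by exact_mod_cast h
    exact ⟨h', by gcongr⟩
  have a := m h1
  have b := m h2
  cases p <;> simp only [ht, sA, sB, cond] at h <;> grind

theorem rep_of_book {V C : Type} (G : SimpleGraph V) (cl : V → C) (ty : V → Bool)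
    (hty : ∀ u v, cl u = cl v ↔ ty u = ty v) (π : V → ℕ) (hπ : Function.Injective π) (n : ℕ)
    (hn : ∀ v, π v < n) (pg : V → V → Bool)
    (hm : ∀ a b a' b', G.Adj a b → G.Adj a' b' → ty a = false → ty b = true → ty a' = false →
      ty b' = true → pg a b = pg a' b' → π a < π a' → π b ≤ π b') (sh : Bool) :
    Nonempty (Rep sh G cl) := by
  have ends : ∀ e : Inter G cl, ∃ a b, e.1 = s(a, b) ∧ G.Adj a b ∧ ty a = false ∧ ty b = true := by
    rintro ⟨e, h1, h2⟩
    induction e using Sym2.ind with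
    | h u v =>
    have h3 : ty u ≠ ty v := fun k => h2 (by simpa using (hty u v).mpr k)
    cases hu : ty u
    · exact ⟨u, v, rfl, h1, hu, by simpa [hu] using h3⟩
    · exact ⟨v, u, Sym2.eq_swap, G.adj_symm h1, by simpa [hu] using h3, hu⟩
  choose a b he hadj ha hb using ends
  set N : ℝ := n + 1 with hN
  have N1 : 1 ≤ N := by simp [hN]
  have lt : ∀ v, (π v : ℝ) < N := fun v => by
    have : (π v : ℝ) < n := by exact_mod_cast hn v
    linarith
  let l : Inter G cl → ℝ := fun e => sA N (π (a e)) (π (b e)) (pg (a e) (b e))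
  let r : Inter G cl → ℝ := fun e => sB N (π (a e)) (π (b e)) (pg (a e) (b e))
  let X : Inter G cl → unitInterval → ℝ := fun e t => l e + t * (r e - l e)
  have lr : ∀ e, 0 < r e - l e := fun e => by
    have := sA_lt (p := pg (a e) (b e)) N1 (lt (a e)) (lt (b e))
    simp only [l, r]
    linarith
  have Xl : ∀ e t, l e ≤ X e t := fun e t => le_add_of_nonneg_right (mul_nonneg t.2.1 (lr e).le)
  have Xr : ∀ e t, X e t ≤ r e := fun e t => by
    have := mul_le_of_le_one_left (lr e).le t.2.2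
    simp only [X]
    linarith
  have Xi : ∀ e, Function.Injective (X e) := fun e s t h =>
    Subtype.ext (mul_right_cancel₀ (lr e).ne' (add_left_cancel h))
  have X0 : ∀ e, X e 0 = l e := fun e => by simp [X]
  have X1 : ∀ e, X e 1 = r e := fun e => by simp [X]
  refine ⟨⟨N, N, by linarith, by linarith, fun v => (cond (ty v) (3 * N + π v) (-π v), π v),
    fun u v => ?_, fun e t => (X e t, ht N (π (a e)) (π (b e)) (pg (a e) (b e)) (X e t)),
    fun e => ?_, fun e s t h => Xi e (congrArg Prod.fst h), fun e => ?_, fun e f ne s t h => ?_⟩⟩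
  · rw [hty]
    have := frac (lt u)
    have := frac (lt v)
    have := lt u
    have := lt v
    cases ty u <;> cases ty v <;> simp only [cond, rect]
    · exact iff_of_true ⟨(0, N), by simp only [mem_inter_iff, mem_prod, mem_Icc]; grind⟩ trivial
    · exact iff_of_false (by
        rintro ⟨z, ⟨⟨-, c⟩, -⟩, ⟨d, -⟩, -⟩; linarith) (by simp)
    · exact iff_of_false (by
        rintro ⟨z, ⟨⟨c, -⟩, -⟩, ⟨-, d⟩, -⟩; linarith) (by simp)
    · exact iff_of_true ⟨(4 * N, N), by simp only [mem_inter_iff, mem_prod, mem_Icc]; grind⟩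
        trivial
  · simp only [X, ht]
    cases pg (a e) (b e) <;> simp only [cond] <;> fun_prop
  · refine ⟨a e, b e, he e, ?_, ?_, fun t w h => ?_⟩
    · rw [X0, ha]; exact frA N1 (lt _) (lt _)
    · rw [X1, hb]; exact frB N1 (lt _) (lt _)
    · cases hw : ty w <;> rw [hw] at h
      · have := inA N1 (lt _) (lt _) (lt w) (Xl e t) h
        exact .inl ⟨Xi e (this.1.trans (X0 e).symm), hπ this.2⟩
      · have := inB N1 (lt _) (lt _) (lt w) (Xr e t) h
        exact .inr ⟨Xi e (this.1.trans (X1 e).symm), hπ this.2⟩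
  · exfalso
    have h1 : X e s = X f t := congrArg Prod.fst h
    have h2 := congrArg Prod.snd h
    simp only [← h1] at h2
    have h3 := page_eq (lt _) (lt _) (lt _) (lt _) (Xl e s) (Xr e s) (h1 ▸ Xl f t) (h1 ▸ Xr f t) h2
    rw [← h3] at h2
    have k1 := hm _ _ _ _ (hadj e) (hadj f) (ha e) (hb e) (ha f) (hb f) h3
    have k2 := hm _ _ _ _ (hadj f) (hadj e) (ha f) (hb f) (ha e) (hb e) h3.symm
    have k3 := fun c d => nest N1 c d h2
    have k4 := fun c d => nest N1 c d h2.symm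
    have : π (a e) = π (a f) ∧ π (b e) = π (b f) := by omega
    exact ne (Subtype.ext (by rw [he, he, hπ this.1, hπ this.2]))

theorem rep_of_levels {V C : Type} [Fintype V] (G : SimpleGraph V) (cl : V → C) (ty : V → Bool)
    (hty : ∀ u v, cl u = cl v ↔ ty u = ty v) (lev X : V → ℕ)
    (inj : ∀ u v, lev u = lev v → X u = X v → u = v)
    (step : ∀ u v, G.Adj u v → ty u ≠ ty v → lev v = lev u + 1 ∨ lev u = lev v + 1)
    (nc : ∀ u u' v v', G.Adj u u' → ty u ≠ ty u' → G.Adj v v' → ty v ≠ ty v' → lev u = lev v →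
      lev u' = lev u + 1 → lev v' = lev v + 1 → X u < X v → X u' ≤ X v') (sh : Bool) :
    Nonempty (Rep sh G cl) := by
  obtain ⟨rk, h1, h2⟩ := exists_rank fun v => toLex (lev v, X v)
  have h3 : ∀ u v, lev u < lev v ∨ (lev u = lev v ∧ X u < X v) → rk u < rk v :=
    fun u v h => h2 u v (Prod.Lex.toLex_lt_toLex.mpr h)
  refine rep_of_book G cl ty hty rk (fun u v h => ?_) _ h1
    (fun a b => decide (lev b = lev a + 1)) (fun a b a' b' e e' t1 t2 t3 t4 pg l => ?_) sh
  · have := h3 u v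
    have := h3 v u
    exact inj u v (by omega) (by omega)
  · have n : ty a ≠ ty b := by simp [t1, t2]
    have n' : ty a' ≠ ty b' := by simp [t3, t4]
    have s1 := step _ _ e n
    have s2 := step _ _ e' n'
    have c1 := nc _ _ _ _ e n e' n'
    have c2 := nc _ _ _ _ e'.symm n'.symm e.symm n.symm
    have d1 := h3 a' a
    have d2 := h3 b' b
    have d3 := h3 b b'
    simp only [decide_eq_decide] at pg
    by_contra k
    have l0 : lev a ≤ lev a' := by clear d2 d3 c1 c2 s1 s2 pg; omega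
    have l0' : lev b' ≤ lev b := by clear d1 d2 c1 c2 s1 s2 pg; omega
    have l1 : lev a = lev a' ∧ lev b = lev b' := by clear d1 d2 d3 c1 c2; omega
    have l2 : X a ≠ X a' := fun c => l.ne (congrArg rk (inj _ _ l1.1 c))
    have l3 : X b ≠ X b' := fun c => k (congrArg rk (inj _ _ l1.2 c)).le
    have l4 : X a < X a' := by clear d2 d3 c1 c2 s1 s2 pg; omega
    have l5 : X b' < X b := by clear d1 d2 c1 c2 s1 s2 pg; omega
    rcases s1 with s1 | s1
    · exact (c1 l1.1 s1 (pg.mp s1) l4).not_gt l5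
    · exact (c2 l1.2.symm (by omega) s1 l5).not_gt l4

end Pool.Agent.Lib.MP_c1785c_lc
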