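import Pool.Agent.Lib.MP_c1785c_lc.Grid
import Pool.Agent.Shared.CookLevin

/-!
From satisfiability to three-colourability, and the whole reduction.
-/

set_option autoImplicit false

namespace Pool.Agent.Lib.MP_c1785c_lc

open Pool.Agent.Shared.CookLevin Pool.Agent.Shared.PolyTime

def lit (l : Bool × ℕ) : ℕ := 2 + 2 * l.2 + cond l.1 0 1

def gad (a b c x : ℕ) : List (ℕ × ℕ) := [(a, x), (b, x + 1), (x, x + 1), (x, x + 2),
  (x + 1, x + 2), (x + 2, x + 3), (c, x + 4), (x + 3, x + 4), (x + 3, x + 5), (x + 4, x + 5),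
  (0, x + 5)]

def cg (φ : E3 ℕ) : List (ℕ × ℕ) :=
  (0, 1) :: (((List.range (3 * φ.length)).flatMap fun v =>
    [(1, 2 + 2 * v), (1, 3 + 2 * v), (2 + 2 * v, 3 + 2 * v)]) ++
    φ.zipIdx.flatMap fun p => gad (lit p.1.1) (lit p.1.2.1) (lit p.1.2.2)
      (2 + 6 * φ.length + 6 * p.2))

variable {φ : E3 ℕ}
  (hφ : ∀ C ∈ φ, C.1.2 < 3 * φ.length ∧ C.2.1.2 < 3 * φ.length ∧ C.2.2.2 < 3 * φ.length)

lemma all_cg {P : ℕ × ℕ → Prop} : (∀ e ∈ cg φ, P e) ↔ P (0, 1) ∧
    (∀ v < 3 * φ.length, P (1, 2 + 2 * v) ∧ P (1, 3 + 2 * v) ∧ P (2 + 2 * v, 3 + 2 * v)) ∧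
    ∀ i (h : i < φ.length), ∀ e ∈ gad (lit φ[i].1) (lit φ[i].2.1) (lit φ[i].2.2)
      (2 + 6 * φ.length + 6 * i), P e := by
  simp only [cg, List.forall_mem_cons, List.forall_mem_append, List.forall_mem_flatMap,
    List.mem_range, List.not_mem_nil, false_imp_iff, implies_true, and_true]
  refine and_congr_right fun _ => and_congr_right fun _ => ⟨fun h i hi => ?_, fun h p hp => ?_⟩
  · exact h (φ[i], i) (List.mk_mem_zipIdx_iff_getElem?.mpr (List.getElem?_eq_getElem hi))
  · obtain ⟨hi, e⟩ := List.getElem?_eq_some_iff.mp (List.mem_zipIdx_iff_getElem?.mp hp)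
    exact e ▸ h p.2 hi

lemma lit_lt {l : Bool × ℕ} {m : ℕ} (h : l.2 < 3 * m) : 2 ≤ lit l ∧ lit l < 2 + 6 * m := by
  unfold lit
  cases l.1 <;> simp only [cond] <;> omega

include hφ

lemma cg_lt : ∀ e ∈ cg φ, e.1 < e.2 ∧ e.2 < 2 + 12 * φ.length := by
  refine all_cg.mpr ⟨by simp only; omega, fun v hv => by simp only; omega, fun i hi => ?_⟩
  obtain ⟨a, b, c⟩ := hφ _ (List.getElem_mem hi)
  have := lit_lt a
  have := lit_lt b
  have := lit_lt c
  simp only [gad, List.forall_mem_cons, List.not_mem_nil, false_imp_iff, implies_true, and_true]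
  omega

set_option synthInstance.maxSize 4000 in
lemma cg_iff : Sat3 φ ↔ ∃ c : ℕ → Fin 3, ∀ e ∈ cg φ, c e.1 ≠ c e.2 := by
  constructor
  · rintro ⟨τ, hτ⟩
    have ex : ∀ a b d : Fin 3, ∃ p q o p' q' o' : Fin 3, (a ≠ 0 ∨ b ≠ 0 ∨ d ≠ 0) →
        a ≠ p ∧ b ≠ q ∧ p ≠ q ∧ p ≠ o ∧ q ≠ o ∧ o ≠ p' ∧ d ≠ q' ∧ p' ≠ q' ∧ p' ≠ o' ∧ q' ≠ o' ∧
          0 ≠ o' := by decide +kernel
    choose p q o p' q' o' hx using ex
    let t : Bool × ℕ → Fin 3 := fun l => if τ l.2 = l.1 then 2 else 0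
    let G : (Bool × ℕ) × (Bool × ℕ) × (Bool × ℕ) → ℕ → Fin 3 := fun C k =>
      ([p, q, o, p', q', o'].getD k p) (t C.1) (t C.2.1) (t C.2.2)
    let c : ℕ → Fin 3 := fun x => if x = 0 then 0 else if x = 1 then 1 else
      if x < 2 + 6 * φ.length then t (decide (x % 2 = 0), (x - 2) / 2) else
        G (φ.getD ((x - (2 + 6 * φ.length)) / 6) default) ((x - (2 + 6 * φ.length)) % 6)
    have cl : ∀ l : Bool × ℕ, l.2 < 3 * φ.length → c (lit l) = t l := by
      rintro ⟨b, v⟩ h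
      have := lit_lt (l := (b, v)) h
      simp only [c]
      rw [if_neg (by omega), if_neg (by omega), if_pos this.2]
      cases b <;> simp only [lit, cond] <;> congr <;> first | omega | (simp; done) | (simp; omega)
    have cG : ∀ i (h : i < φ.length), ∀ k < 6, c (2 + 6 * φ.length + 6 * i + k) = G φ[i] k := by
      intro i h k hk
      simp only [c]
      rw [if_neg (by omega), if_neg (by omega), if_neg (by omega),
        show (2 + 6 * φ.length + 6 * i + k - (2 + 6 * φ.length)) / 6 = i by omega,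
        show (2 + 6 * φ.length + 6 * i + k - (2 + 6 * φ.length)) % 6 = k by omega,
        List.getD_eq_getElem _ _ h]
    refine ⟨c, all_cg.mpr ⟨by simp [c], fun v hv => ?_, fun i hi => ?_⟩⟩
    · have a := cl (true, v) hv
      have b := cl (false, v) hv
      simp only [lit, cond, add_zero, show 2 + 2 * v + 1 = 3 + 2 * v by ring] at a b
      simp only [a, b, show c 1 = 1 from rfl, t]
      cases τ v <;> simp
    · obtain ⟨a, b, d⟩ := hφ _ (List.getElem_mem hi)
      have := cG i hi 0 (by decide)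
      simp only [gad, List.forall_mem_cons, List.not_mem_nil, false_imp_iff, implies_true,
        and_true, cl _ a, cl _ b, cl _ d, cG i hi 1 (by decide), cG i hi 2 (by decide),
        cG i hi 3 (by decide), cG i hi 4 (by decide), cG i hi 5 (by decide),
        show c (2 + 6 * φ.length + 6 * i) = _ from this]
      refine hx _ _ _ ?_
      rcases hτ _ (List.getElem_mem hi) with h | h | h <;> simp [t, h]
  · rintro ⟨c, hc⟩
    obtain ⟨h0, h1, h2⟩ := all_cg.mp hc
    refine ⟨fun v => decide (c (2 + 2 * v) ≠ c 0), fun C hC => ?_⟩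
    have a : ∀ l : Bool × ℕ, l.2 < 3 * φ.length → c (lit l) ≠ c 0 →
        decide (c (2 + 2 * l.2) ≠ c 0) = l.1 := by
      rintro ⟨b, v⟩ h k
      have := h1 v h
      cases b
      · simp only [lit, cond, show 2 + 2 * v + 1 = 3 + 2 * v by ring] at k this h0
        simp only [decide_eq_false_iff_not, not_not]
        exact (third _ _ _ _ h0 this.2.1 k.symm this.2.2.symm this.1).symm
      · exact decide_eq_true k
    obtain ⟨i, hi, rfl⟩ := List.getElem_of_mem hC
    obtain ⟨b1, b2, b3⟩ := hφ _ hC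
    have k := h2 i hi
    simp only [gad, List.forall_mem_cons, List.not_mem_nil, false_imp_iff, implies_true,
      and_true] at k
    obtain ⟨k1, k2, k3, k4, k5, k6, k7, k8, k9, k10, k11⟩ := k
    by_contra n
    simp only [not_or] at n
    have e1 := not_not.mp (mt (a _ b1) n.1)
    have e2 := not_not.mp (mt (a _ b2) n.2.1)
    have e3 := not_not.mp (mt (a _ b3) n.2.2)
    rw [e1] at k1
    rw [e2] at k2
    rw [e3] at k7
    rw [← third _ _ _ _ k1 k3 k2 k5 k4] at k6
    exact k11 (third _ _ _ _ k6 k8 k7 k10 k9)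

omit hφ

/-- the instance attached to a formula -/
def red (φ : E3 ℕ) : Inst := inst (grid (2 + 12 * φ.length) (cg φ))

section pt

variable {α : Type} [N487b59b3 α]

@[fun_prop] theorem lab_pt {n P Q : α → ℕ} {Es : α → List (ℕ × ℕ)} (d : ℕ) (hn : PT n)
    (hE : PT Es) (hP : PT P) (hQ : PT Q) : PT fun a => lab (n a) (Es a) (P a) (Q a) d := by
  have h : PT fun a => 4 ^ (10 * (P a % 5) + 2 * (Q a % 5) + d) :=
    PT.pow (PT.const 4) (by fun_prop) ((PB.const (50 + d)).mono fun a => by omega)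
  unfold lab tlab kind
  fun_prop

@[fun_prop] theorem emb_pt {l : α → Dsc} {k : α → ℕ} (hl : PT l) (hk : PT k) :
    PT fun a => emb (l a) (k a) := by
  unfold emb nx
  fun_prop

@[fun_prop] theorem adj_pt {Es : α → List (Dsc × Dsc)} {u v : α → Dsc} (hE : PT Es) (hu : PT u)
    (hv : PT v) : PT fun a => adj (Es a) (u a) (v a) := by
  unfold adj par
  fun_prop

theorem inst_pt {Es : α → List (Dsc × Dsc)} (hE : PT Es) : PT fun a => inst (Es a) := by
  unfold inst verts par
  fun_prop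

theorem grid_pt {n : α → ℕ} {Es : α → List (ℕ × ℕ)} (hn : PT n) (bn : PB n) (hE : PT Es) :
    PT fun a => grid (n a) (Es a) := by
  have h : PT fun a => links (25 * n a) (5 * ((Es a).length + 1)) (lab (n a) (Es a)) := by
    unfold links nx
    fun_prop
  unfold grid edges ed
  fun_prop

theorem red_pt {φ : α → E3 ℕ} (h : PT φ) : PT fun a => red (φ a) :=
  inst_pt (grid_pt (by fun_prop) (by fun_prop) (by unfold cg gad lit; fun_prop))

end pt

theorem hard {k : ℕ} (hk : 2 ≤ k) {L : List Bool → Bool} (hL : L ∈ N68a2faeb.NP) :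
    ∃ f : List Bool → Inst, PT f ∧ ∀ x, (f x).Valid k ∧
      ∀ sh, (L x = true ↔ (f x).CliquePlanar sh) := by
  obtain ⟨φ, hφ, h⟩ := cook_levin_e3 hL
  refine ⟨fun x => red (φ x), red_pt hφ, fun x => ⟨valid_inst (net_par lab_lt) hk, fun sh => ?_⟩⟩
  rw [(h x).2.2, cg_iff (h x).2.1]
  exact ⟨fun ⟨c, hc⟩ => grid_yes (cg_lt (h x).2.1) c hc sh, grid_no (by omega) (cg_lt (h x).2.1)⟩

end Pool.Agent.Lib.MP_c1785c_lc
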