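import Mathlib

/-!
The finite tables: three link gadgets with their levelled drawings, and five tiles.
-/

set_option autoImplicit false

namespace Pool.Agent.Lib.MP_c1785c_lc

def ed (τ : ℕ) : List (ℕ × ℕ) := ([
  [(0, 2), (2, 3), (3, 4), (4, 5), (5, 6), (6, 7), (7, 8), (8, 9), (9, 10), (10, 11), (11, 12),
  (12, 13), (13, 14), (14, 15), (15, 16), (16, 1)],
  [(0, 2), (2, 3), (3, 4), (4, 5), (5, 6), (6, 7), (7, 8), (8, 9), (9, 10), (10, 11), (11, 12),
  (12, 1), (0, 24), (24, 3), (0, 26), (26, 3), (2, 29), (29, 4), (2, 31), (31, 4), (3, 32), (32,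
  5), (3, 34), (34, 5), (4, 37), (37, 6), (4, 39), (39, 6), (5, 40), (40, 7), (5, 42), (42, 7),
  (6, 45), (45, 8), (6, 47), (47, 8), (7, 48), (48, 9), (7, 50), (50, 9), (8, 53), (53, 10), (8,
  55), (55, 10), (9, 56), (56, 11), (9, 58), (58, 11), (10, 61), (61, 12), (10, 63), (63, 12),
  (11, 64), (64, 1), (11, 66), (66, 1)],
  [(0, 2), (2, 3), (3, 4), (4, 5), (5, 6), (6, 7), (7, 8), (8, 9), (9, 10), (10, 11), (11, 12),
  (12, 13), (13, 14), (14, 15), (15, 16), (16, 1), (0, 24), (24, 3), (0, 26), (26, 3), (2, 29),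
  (29, 4), (2, 31), (31, 4), (3, 32), (32, 5), (3, 34), (34, 5), (4, 37), (37, 6), (4, 39), (39,
  6), (5, 40), (40, 7), (5, 42), (42, 7), (7, 48), (48, 9), (7, 50), (50, 9), (8, 53), (53, 10),
  (8, 55), (55, 10), (11, 64), (64, 13), (11, 66), (66, 13), (12, 69), (69, 14), (12, 71), (71,
  14), (13, 72), (72, 15), (13, 74), (74, 15), (14, 77), (77, 16), (14, 79), (79, 16), (15, 80),
  (80, 1), (15, 82), (82, 1)]] :
  List (List (ℕ × ℕ))).getD τ []

def tr (τ : ℕ) : List (ℕ × ℕ × ℕ × ℕ × ℕ) := ([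
  [],
  [(0, 3, 2, 24, 26), (2, 4, 3, 29, 31), (3, 5, 4, 32, 34), (4, 6, 5, 37, 39), (5, 7, 6, 40, 42),
  (6, 8, 7, 45, 47), (7, 9, 8, 48, 50), (8, 10, 9, 53, 55), (9, 11, 10, 56, 58), (10, 12, 11, 61,
  63), (11, 1, 12, 64, 66)],
  [(0, 3, 2, 24, 26), (2, 4, 3, 29, 31), (3, 5, 4, 32, 34), (4, 6, 5, 37, 39), (5, 7, 6, 40, 42),
  (7, 9, 8, 48, 50), (8, 10, 9, 53, 55), (11, 13, 12, 64, 66), (12, 14, 13, 69, 71), (13, 15, 14,
  72, 74), (14, 16, 15, 77, 79), (15, 1, 16, 80, 82)]] :
  List (List (ℕ × ℕ × ℕ × ℕ × ℕ))).getD τ []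

def LV : List ℕ := [13686902101676125525706112, 16182748955001430924658112,
  18678595806074936509924864, 13686902099354027904077186, 16182748955074069628325314,
  18678595808399375027277314, 13686902101678466421429636, 16182748952751972006696388,
  18678595808472013730944516,
  24083921977826420497112468269334342407742464963474224034251376450340651986131878580152547621081253248,
  0, 0, 0,
  28462829031028316301073965207248566091691985080868850036672541187108111378535395887317490538938240450,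
  0, 0, 0,
  32841736084230212105035462145162789775641505198263476039093705923875570770938913194482433456795227652,
  0,
  34409448914886968813610815139771238085308798688064211293218148527125125782813378631838021949129015418278160189208402674648512,
  39703222713195351298992165610196376302158597046285690844439380405908641082476270662553829454123039453617115731531721360868864,
  29115675116578586328229464669346099868458878794465868254918203362559267805729440768663296127427164302273307330881284086041986,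
  0,
  39703222713195351298992165610196376302158718581666176368000895968213674402587913397404167592075839021175717126380647435341314,
  29115675116578586328229464669346099868459000329846353778479718924864301125841083503513634265379963869831908725730210160514436,
  34409448914886968813610815139771238085308798688067833329700950803647816425503975534229441770373987905170864268053528846734788,
  0]

def SB : List ℕ := [21214698242078735526332962, 21214698242260154944916002,
  21214698242260154944916002, 21214698242260154944916002, 21214698242078735526332962,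
  21214698242260154944916002, 21214698242260154944916002, 21214698242260154944916002,
  21214698242078735526332962,
  8755410925432924670289274789636633366347065294789177757441175332921895999952666143300336433082992706,
  0, 0, 0,
  8755410925432924670289274789636633366347065294789177757441175332921895999952666143300336433082992706,
  0, 0, 0,
  8755410925432924670289274789636633366347065294789177757441175332921895999952666143300336433082992706,
  0,
  50287945816404746018267170168348631455052988622018944887373196655808617190453390911774611835521214940770687736013956946397730,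
  50287945816404746018267170168348631455052988622018944887373196655808617190453390911774611835521214940770687736013956946397730,
  50287945816404746018267170168348631455052988622018944887373196655808617190453390911774611835521214940770687736013956946397730,
  0,
  50287945816404746018267170168348631455052988622018944887373196655808617190453390911774611835521214940770687736013956946397730,
  50287945816404746018267170168348631455052988622018944887373196655808617190453390911774611835521214940770687736013956946397730,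
  50287945816404746018267170168348631455052988622018944887373196655808617190453390911774611835521214940770687736013956946397730,
  0]

def TL : List ℕ := [0, 1229781765434900480, 1237941221107908657652170752,
  91008434691549627389472778900, 1229781767582385152]

def TC : List ℕ := [0, 0, 0, 375299968947541, 375299968947541, 375299968947541, 750599937895082,
  750599937895082, 750599937895082, 0, 0, 0, 375299968947541, 375299968947541, 375299968947541,
  750599937895082, 750599937895082, 750599937895082, 0, 0, 0, 375299968947541, 375299968947541,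
  375299968947541, 750599937895082, 750599937895082, 750599937895082, 709830461774154,
  732831047813786, 392810352477541, 715320664283786, 721838402570266, 35279273611296,
  357789585417541, 17768890081296, 387307909743653, 0, 16400, 32800, 375299968931141,
  375299968947541, 375299968963941, 750599937862282, 750599937878682, 750599937895082]

/-- level of a vertex of a link gadget -/
def tl (τ : ℕ) (a b : Fin 3) (k : ℕ) : ℕ := LV.getD (9 * τ + 3 * a + b) 0 / 32 ^ k % 32

/-- relative horizontal position of a vertex of a link gadget -/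
def rx (d τ : ℕ) (a b : Fin 3) (k : ℕ) : ℕ :=
  if k = 0 then 40 else if k = 1 then (if d = 1 then 80 else 0) else
    (if d = 1 then 60 else 20) + SB.getD (9 * τ + 3 * a + b) 0 / 32 ^ k % 32

/-- class of a vertex of a link gadget -/
def par (k : ℕ) : Bool := decide (2 ≤ k) && decide (k % 2 = 0)

/-- the vertices of a link gadget -/
def vs (τ : ℕ) : List ℕ := (ed τ).flatMap fun e => [e.1, e.2]

/-- the constraint of a link -/
def Ok (τ : ℕ) (a b : Fin 3) : Prop := (τ = 1 → a = b) ∧ (τ = 2 → a ≠ b)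

instance (τ : ℕ) (a b : Fin 3) : Decidable (Ok τ a b) := by unfold Ok; infer_instance

lemma ed_par : ∀ τ < 3, ∀ e ∈ ed τ, par e.1 ≠ par e.2 := by decide +kernel

lemma ed_back : ∀ τ < 3, ∀ k ∈ vs τ, k ≠ 0 → ∃ e ∈ ed τ, e.2 = k ∧ e.1 ≠ 1 ∧ (e.1 < k ∨ k = 1) := by
  decide +kernel

lemma vs_ends : ∀ τ < 3, 0 ∈ vs τ ∧ 1 ∈ vs τ := by decide +kernel

lemma tr_spec : ∀ τ < 3, ∀ t ∈ tr τ, t.1 ≠ t.2.1 ∧ t.2.2.1 ≠ t.2.2.2.1 ∧ t.2.2.1 ≠ t.2.2.2.2 ∧
    t.2.2.2.1 ≠ t.2.2.2.2 ∧ ∀ v ∈ [t.2.2.1, t.2.2.2.1, t.2.2.2.2],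
      (t.1, v) ∈ ed τ ∧ (v, t.2.1) ∈ ed τ := by decide +kernel

lemma tl_range : ∀ τ < 3, ∀ a b, Ok τ a b → tl τ a b 0 = 2 * a ∧ tl τ a b 1 = 12 + 2 * b ∧
    ∀ k ∈ vs τ, 2 ≤ k → 2 * a < tl τ a b k ∧ tl τ a b k < 12 + 2 * b ∧
      60 ≤ rx 1 τ a b k ∧ rx 1 τ a b k < 80 ∧ rx 2 τ a b k + 40 = rx 1 τ a b k := by
  decide +kernel

lemma tl_step : ∀ τ < 3, ∀ a b, Ok τ a b → ∀ e ∈ ed τ,
    tl τ a b e.2 = tl τ a b e.1 + 1 ∨ tl τ a b e.1 = tl τ a b e.2 + 1 := by decide +kernel

lemma tl_inj : ∀ τ < 3, ∀ a b, Ok τ a b → ∀ k ∈ (vs τ).dedup, ∀ k' ∈ (vs τ).dedup,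
    tl τ a b k = tl τ a b k' → rx 1 τ a b k = rx 1 τ a b k' → k = k' := by decide +kernel

/-- the edges of a link gadget, directed upwards -/
def ups (τ : ℕ) (a b : Fin 3) : List (ℕ × ℕ) :=
  (ed τ).map fun e => if tl τ a b e.1 < tl τ a b e.2 then e else e.swap

lemma tl_nc : ∀ τ < 3, ∀ a b, Ok τ a b → ∀ e ∈ ups τ a b, ∀ f ∈ ups τ a b,
    tl τ a b e.1 = tl τ a b f.1 → ∀ d ∈ [1, 2], rx d τ a b e.1 < rx d τ a b f.1 →
      rx d τ a b e.2 ≤ rx d τ a b f.2 := by decide +kernel

lemma third : ∀ a b c d : Fin 3, a ≠ b → b ≠ c → a ≠ c → c ≠ d → b ≠ d → a = d := by decide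

lemma link_sound {τ : ℕ} (g : ℕ → Fin 3) (h1 : ∀ e ∈ ed τ, g e.1 ≠ g e.2)
    (h2 : ∀ t ∈ tr τ, g t.1 ≠ g t.2.1) : Ok τ (g 0) (g 1) := by
  have a : ∀ x y z w, ((x, y) ∈ ed τ ∧ (y, z) ∈ ed τ ∧ (z, w) ∈ ed τ ∧
      (∃ t ∈ tr τ, t.1 = x ∧ t.2.1 = z) ∧ ∃ t ∈ tr τ, t.1 = y ∧ t.2.1 = w) → g x = g w := by
    rintro x y z w ⟨a1, a2, a3, ⟨t, t1, t2, t3⟩, s, s1, s2, s3⟩
    exact third (g x) (g y) (g z) (g w) (h1 _ a1) (h1 _ a2) (t2 ▸ t3 ▸ h2 t t1) (h1 _ a3)
      (s2 ▸ s3 ▸ h2 s s1)
  constructor <;> rintro rfl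
  · rw [a 0 2 3 4 (by decide), a 4 5 6 7 (by decide), a 7 8 9 10 (by decide),
      a 10 11 12 1 (by decide)]
  · rw [a 0 2 3 4 (by decide), a 4 5 6 7 (by decide), a 7 8 9 10 (by decide),
      ← a 14 15 16 1 (by decide), ← a 11 12 13 14 (by decide)]
    exact h1 (10, 11) (by decide)

/-- labels of the links of a tile -/
def tlab (κ p q d : ℕ) : ℕ := TL.getD κ 0 / 4 ^ (10 * p + 2 * q + d) % 4 % 3

/-- colours of the nodes of a tile -/
def tc (κ : ℕ) (a b : Fin 3) (p q : ℕ) : Fin 3 :=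
  Fin.ofNat 3 (TC.getD (9 * κ + 3 * a + b) 0 / 4 ^ (5 * p + q) % 4)

set_option synthInstance.maxSize 4000 in
lemma tc_ok : ∀ κ < 5, ∀ a b, (κ = 4 → a ≠ b) → tc κ a b 2 0 = a ∧ tc κ a b 2 4 = a ∧
    (3 ≤ κ → tc κ a b 0 2 = b) ∧ (κ = 2 → tc κ a b 4 2 = a) ∧ (κ = 3 → tc κ a b 4 2 = b) ∧
    ∀ p < 5, ∀ q < 5, (p < 4 → Ok (tlab κ p q 1) (tc κ a b p q) (tc κ a b (p + 1) q)) ∧
      (q < 4 → Ok (tlab κ p q 2) (tc κ a b p q) (tc κ a b p (q + 1))) := by decide +kernel

lemma tlab_out : ∀ κ < 5, ∀ p < 5, tlab κ 4 p 1 = (if p = 2 ∧ (κ = 2 ∨ κ = 3) then 1 else 0) ∧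
    tlab κ p 4 2 = (if p = 2 ∧ κ ≠ 0 then 1 else 0) := by decide +kernel

set_option synthInstance.maxSize 4000 in
lemma cross : ∀ o e n w s : Fin 3, o ≠ e → o ≠ n → o ≠ w → o ≠ s → e ≠ n → n ≠ w → w ≠ s →
    s ≠ e → ∀ E N x : Fin 3, E ≠ e → N ≠ n → x ≠ E → x ≠ N → x ≠ e → ∀ W y : Fin 3, W ≠ w →
    y ≠ N → y ≠ W → y ≠ n → ∀ S z : Fin 3, S ≠ s → z ≠ W → z ≠ S → z ≠ w → ∀ t : Fin 3,
    t ≠ S → t ≠ E → t ≠ s → N = S ∧ E = W := by decide +kernel

lemma tile_sound {κ : ℕ} (hκ : κ < 5) (h0 : κ ≠ 0) (f : ℕ → ℕ → Fin 3)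
    (h1 : ∀ p < 4, ∀ q < 5, Ok (tlab κ p q 1) (f p q) (f (p + 1) q))
    (h2 : ∀ p < 5, ∀ q < 4, Ok (tlab κ p q 2) (f p q) (f p (q + 1))) :
    f 2 4 = f 2 0 ∧ (κ = 2 → f 4 2 = f 2 0) ∧ (κ = 3 → f 4 2 = f 0 2) ∧
      (κ = 4 → f 0 2 ≠ f 2 0) := by
  have e1 := fun p q (h : p < 4 ∧ q < 5 ∧ tlab κ p q 1 = 1) => (h1 p h.1 q h.2.1).1 h.2.2
  have n1 := fun p q (h : p < 4 ∧ q < 5 ∧ tlab κ p q 1 = 2) => (h1 p h.1 q h.2.1).2 h.2.2
  have e2 := fun p q (h : p < 5 ∧ q < 4 ∧ tlab κ p q 2 = 1) => (h2 p h.1 q h.2.1).1 h.2.2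
  have n2 := fun p q (h : p < 5 ∧ q < 4 ∧ tlab κ p q 2 = 2) => (h2 p h.1 q h.2.1).2 h.2.2
  by_cases c : κ = 3
  · subst c
    have := cross (f 2 2) (f 3 2) (f 2 3) (f 1 2) (f 2 1) (n1 2 2 (by decide)) (n2 2 2 (by decide))
      (n1 1 2 (by decide)).symm (n2 2 1 (by decide)).symm
      (e2 3 2 (by decide) ▸ (n1 2 3 (by decide)).symm)
      (e1 1 3 (by decide) ▸ (n2 1 2 (by decide)).symm)
      (e2 1 1 (by decide) ▸ n1 1 1 (by decide)) (e1 2 1 (by decide) ▸ n2 3 1 (by decide))
      (f 4 2) (f 2 4) (f 4 3) (n1 3 2 (by decide)).symm (n2 2 3 (by decide)).symm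
      (n2 4 2 (by decide)).symm
      (e2 4 3 (by decide) ▸ e1 3 4 (by decide) ▸ (n1 2 4 (by decide)).symm)
      (e2 3 2 (by decide) ▸ (n1 3 3 (by decide)).symm)
      (f 0 2) (f 1 4) (n1 0 2 (by decide)) (n1 1 4 (by decide))
      (e1 0 4 (by decide) ▸ e2 0 3 (by decide) ▸ (n2 0 2 (by decide)).symm)
      (e1 1 3 (by decide) ▸ (n2 1 3 (by decide)).symm)
      (f 2 0) (f 0 1) (n2 2 0 (by decide)) (n2 0 1 (by decide))
      (e2 0 0 (by decide) ▸ e1 0 0 (by decide) ▸ n1 1 0 (by decide))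
      (e2 1 1 (by decide) ▸ n1 0 1 (by decide))
      (f 3 0) (n1 2 0 (by decide)).symm
      (e1 3 0 (by decide) ▸ e2 4 0 (by decide) ▸ n2 4 1 (by decide))
      (e1 2 1 (by decide) ▸ n2 3 0 (by decide))
    exact ⟨this.1, by simp, fun _ => this.2, by simp⟩
  · have k : ∀ q < 4, tlab κ 2 q 2 = 1 := by
      interval_cases κ <;> first | exact absurd rfl h0 | exact absurd rfl c | decide
    have a0 := e2 2 0 ⟨by decide, by decide, k _ (by decide)⟩
    have a1 := e2 2 1 ⟨by decide, by decide, k _ (by decide)⟩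
    have a2 := e2 2 2 ⟨by decide, by decide, k _ (by decide)⟩
    have a3 := e2 2 3 ⟨by decide, by decide, k _ (by decide)⟩
    refine ⟨(a0.trans (a1.trans (a2.trans a3))).symm, ?_, fun h => absurd h c, ?_⟩ <;> rintro rfl
    · exact (a0.trans (a1.trans ((e1 2 2 (by decide)).trans (e1 3 2 (by decide))))).symm
    · rw [a0, a1, e1 0 2 (by decide)]
      exact n1 1 2 (by decide)

end Pool.Agent.Lib.MP_c1785c_lc
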