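import Pool.Agent.Lib.MP_c1785c_lc.CombNo
import Pool.Agent.Lib.MP_c1785c_lc.GeoYes
import Pool.Agent.Lib.MP_c1785c_lc.Tab

/-!
The instance with two clusters attached to a list of edges between vertex descriptions.
-/

set_option autoImplicit false

namespace Pool.Agent.Lib.MP_c1785c_lc

abbrev Dsc : Type := ℕ × ℕ × ℕ × ℕ

def verts (Es : List (Dsc × Dsc)) : List Dsc := (Es.flatMap fun e => [e.1, e.2]).dedup

def adj (Es : List (Dsc × Dsc)) (u v : Dsc) : Bool :=
  (!decide (u = v) && !xor (par u.2.2.2) (par v.2.2.2)) ||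
    (decide ((u, v) ∈ Es) || decide ((v, u) ∈ Es))

def inst (Es : List (Dsc × Dsc)) : Inst :=
  ((verts Es).map fun v => (par v.2.2.2).toNat,
    (verts Es).map fun u => (verts Es).map fun v => adj Es u v)

def Ed (Es : List (Dsc × Dsc)) (u v : Dsc) : Prop := (u, v) ∈ Es ∨ (v, u) ∈ Es

variable {Es : List (Dsc × Dsc)}

lemma Ed.symm (u v : Dsc) (h : Ed Es u v) : Ed Es v u := Or.symm h

lemma mem_verts {v : Dsc} : v ∈ verts Es ↔ ∃ u, Ed Es u v := by
  simp only [verts, List.mem_dedup, List.mem_flatMap, List.mem_cons, List.not_mem_nil, or_false, Ed]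
  constructor
  · rintro ⟨e, he, rfl | rfl⟩
    exacts [⟨e.2, .inr he⟩, ⟨e.1, .inl he⟩]
  · rintro ⟨u, h | h⟩
    exacts [⟨_, h, .inr rfl⟩, ⟨_, h, .inl rfl⟩]

lemma len_inst : (inst Es).1.length = (verts Es).length := List.length_map _

def io (Es : List (Dsc × Dsc)) (v : Fin (inst Es).1.length) : Dsc :=
  (verts Es)[v.1]'(len_inst ▸ v.2)

lemma io_mem (v : Fin (inst Es).1.length) : io Es v ∈ verts Es := List.getElem_mem _

lemma io_inj : Function.Injective (io Es) := fun _ _ h =>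
  Fin.ext ((List.nodup_dedup _).getElem_inj_iff.mp h)

lemma io_surj {d : Dsc} (h : d ∈ verts Es) : ∃ v, io Es v = d := by
  obtain ⟨i, hi, rfl⟩ := List.getElem_of_mem h
  exact ⟨⟨i, len_inst.symm ▸ hi⟩, rfl⟩

lemma cl_inst (v : Fin (inst Es).1.length) : (inst Es).cl v = (par (io Es v).2.2.2).toNat :=
  List.getElem_map _

lemma cl_iff (u v : Fin (inst Es).1.length) :
    (inst Es).cl u = (inst Es).cl v ↔ par (io Es u).2.2.2 = par (io Es v).2.2.2 := by
  rw [cl_inst, cl_inst]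
  cases par (io Es u).2.2.2 <;> cases par (io Es v).2.2.2 <;> simp

lemma entry_inst (u v : Fin (inst Es).1.length) :
    (inst Es).entry u v = adj Es (io Es u) (io Es v) := by
  have h1 : u.1 < (verts Es).length := len_inst ▸ u.2
  have h2 : v.1 < (verts Es).length := len_inst ▸ v.2
  simp [Inst.entry, inst, io, h1, h2]

lemma adj_iff (u v : Dsc) : adj Es u v = true ↔
    (u ≠ v ∧ par u.2.2.2 = par v.2.2.2) ∨ Ed Es u v := by
  simp [adj, Ed]

variable (hp : ∀ u v, Ed Es u v → par u.2.2.2 ≠ par v.2.2.2)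
include hp

lemma graph_adj (u v : Fin (inst Es).1.length) :
    (inst Es).graph.Adj u v ↔ (inst Es).entry u v = true := by
  rw [Inst.graph, SimpleGraph.fromRel_adj, entry_inst, entry_inst, adj_iff, adj_iff]
  constructor
  · rintro ⟨-, h | h⟩
    · exact h
    · exact h.imp (fun h => ⟨h.1.symm, h.2.symm⟩) (Ed.symm _ _)
  · exact fun h => ⟨fun e => h.elim (fun h => h.1 (congrArg _ e)) fun h => hp _ _ h (by rw [e]),
      .inl h⟩

lemma inter_iff (u v : Fin (inst Es).1.length) :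
    (inst Es).graph.Adj u v ∧ (inst Es).cl u ≠ (inst Es).cl v ↔ Ed Es (io Es u) (io Es v) := by
  rw [graph_adj hp, entry_inst, adj_iff]
  exact ⟨fun h => h.1.resolve_left fun k => h.2 ((cl_iff u v).mpr k.2),
    fun h => ⟨.inr h, (cl_iff u v).not.mpr (hp _ _ h)⟩⟩

theorem valid_inst {k : ℕ} (hk : 2 ≤ k) : (inst Es).Valid k := by
  refine ⟨by simp [inst], fun row h => ?_, fun u v => (graph_adj hp u v).symm, fun u v ne c => ?_,
    le_trans (Finset.card_le_card (t := {0, 1}) fun x hx => ?_) (Finset.card_le_two.trans hk)⟩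
  · obtain ⟨u, -, rfl⟩ := List.mem_map.mp h
    simp [inst]
  · rw [graph_adj hp, entry_inst, adj_iff]
    exact .inl ⟨io_inj.ne ne, (cl_iff u v).mp c⟩
  · obtain ⟨u, -, rfl⟩ := List.mem_map.mp (List.mem_toFinset.mp hx)
    cases par u.2.2.2 <;> simp

theorem inst_yes (lev X : Dsc → ℕ)
    (inj : ∀ u ∈ verts Es, ∀ v ∈ verts Es, lev u = lev v → X u = X v → u = v)
    (step : ∀ u v, Ed Es u v → lev v = lev u + 1 ∨ lev u = lev v + 1)
    (nc : ∀ u u' v v', Ed Es u u' → Ed Es v v' → lev u = lev v →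
      lev u' = lev u + 1 → lev v' = lev v + 1 → X u < X v → X u' ≤ X v') (sh : Bool) :
    (inst Es).CliquePlanar sh :=
  have e := fun u v h (h' : par (io Es u).2.2.2 ≠ par (io Es v).2.2.2) =>
    (inter_iff hp u v).mp ⟨h, (cl_iff u v).not.mpr h'⟩
  rep_of_levels _ _ (fun v => par (io Es v).2.2.2) cl_iff (fun v => lev (io Es v))
    (fun v => X (io Es v)) (fun u v a b => io_inj (inj _ (io_mem u) _ (io_mem v) a b))
    (fun u v a b => step _ _ (e u v a b))
    (fun u u' v v' a b c d => nc _ _ _ _ (e u u' a b) (e v v' c d)) sh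

theorem inst_no {sh : Bool} (h : (inst Es).CliquePlanar sh) (ix : Dsc → ℕ) (z0 : Dsc)
    (h0 : z0 ∈ verts Es)
    (hZ : ∀ i, 1 ≤ i → ∀ v ∈ verts Es, ix v ≠ i → Conn (Ed Es) {y | ix y ≠ i} v z0) :
    ∃ i, 1 ≤ i ∧ i ≤ 5 ∧ ∃ c : Dsc → Fin 3,
      (∀ u v, ix u = i → ix v = i → Ed Es u v → c u ≠ c v) ∧
      ∀ u w, ix u = i → ix w = i → u ≠ w → ∀ v : Fin 3 → Dsc, Function.Injective v →
        (∀ j, ix (v j) = i ∧ Ed Es u (v j) ∧ Ed Es w (v j)) → c u ≠ c w := by
  obtain ⟨D⟩ := h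
  obtain ⟨r, hr, hK⟩ := D.noK33
  have e1 : Hrel (fun u v => (inst Es).graph.Adj u v ∧ (inst Es).cl u ≠ (inst Es).cl v)
      (inst Es).cl r = Hrel (fun u v => Ed Es (io Es u) (io Es v))
        (fun v => par (io Es v).2.2.2) r := by
    funext u v
    simp only [Hrel, inter_iff hp, cl_iff]
  rw [e1] at hK
  have ext : ∀ (s : Fin (inst Es).1.length → ℝ) (b : Bool), ∃ j, ∀ w, par (io Es w).2.2.2 = b →
      ∃ z, ix (io Es z) = j ∧ par (io Es z).2.2.2 = b ∧ s z ≤ s w := fun s b => by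
    rcases Set.eq_empty_or_nonempty {w | par (io Es w).2.2.2 = b} with c | c
    · exact ⟨0, fun w hw => absurd hw (Set.eq_empty_iff_forall_notMem.mp c w)⟩
    · obtain ⟨z, hz, hm⟩ := Set.exists_min_image _ s (Set.toFinite _) c
      exact ⟨_, fun w hw => ⟨z, rfl, hz, hm w hw⟩⟩
  choose j1 h1 using ext r
  choose j2 h2 using ext fun v => -r v
  obtain ⟨i, i1, i5, hi⟩ : ∃ i, 1 ≤ i ∧ i ≤ 5 ∧ ∀ b, j1 b ≠ i ∧ j2 b ≠ i := by
    by_contra n
    simp only [not_exists, not_and, Bool.forall_bool] at n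
    have := n 1; have := n 2; have := n 3; have := n 4; have := n 5
    omega
  obtain ⟨z0, rfl⟩ := io_surj h0
  obtain ⟨c, c1, c2⟩ := colouring (E := fun u v => Ed Es (io Es u) (io Es v))
    (cl := fun v => par (io Es v).2.2.2) (fun u v => Ed.symm _ _) (fun u v => hp _ _) hr hK
    {v | ix (io Es v) = i} z0 (fun z hz => by
      have : ∀ b, Conn (Ed Es) {y | ix y ≠ i} (io Es z) b → ∀ y, io Es y = b →
          Conn (fun u v => Ed Es (io Es u) (io Es v)) {v | ix (io Es v) = i}ᶜ z y := by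
        rintro b ⟨-, k⟩
        induction k with
        | refl => exact fun y e => (io_inj e).symm ▸ .refl hz
        | tail k h ih =>
          rintro y rfl
          obtain ⟨x, rfl⟩ := io_surj (mem_verts.mpr ⟨_, h.1.symm⟩)
          exact (ih x rfl).trans (.single (ih x rfl).right h.2 h.1)
      exact this _ (hZ i i1 _ (io_mem z) hz) z0 rfl)
    (fun w hw => by
      obtain ⟨z, a, b, c⟩ := h1 _ w rfl
      have n : z ∉ {v | ix (io Es v) = i} := fun k => (hi _).1 (a.symm.trans k)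
      exact ⟨z, n, b, lt_of_le_of_ne c (hr.ne fun e => n (e ▸ hw))⟩)
    (fun w hw => by
      obtain ⟨z, a, b, c⟩ := h2 _ w rfl
      have n : z ∉ {v | ix (io Es v) = i} := fun k => (hi _).2 (a.symm.trans k)
      exact ⟨z, n, b, lt_of_le_of_ne (neg_le_neg_iff.mp c) (hr.ne fun e => n (e ▸ hw))⟩)
  have ce : ∀ v, Function.extend (io Es) c (fun _ => 0) (io Es v) = c v := io_inj.extend_apply _ _
  refine ⟨i, i1, i5, Function.extend (io Es) c fun _ => 0, fun u v a b e => ?_,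
    fun u w a b ne v vi hv => ?_⟩
  · obtain ⟨u, rfl⟩ := io_surj (mem_verts.mpr ⟨_, e.symm⟩)
    obtain ⟨v, rfl⟩ := io_surj (mem_verts.mpr ⟨_, e⟩)
    rw [ce, ce]
    exact c1 u a v b e
  · obtain ⟨u, rfl⟩ := io_surj (mem_verts.mpr ⟨_, (hv 0).2.1.symm⟩)
    obtain ⟨w, rfl⟩ := io_surj (mem_verts.mpr ⟨_, (hv 0).2.2.symm⟩)
    choose y hy using fun j => io_surj (mem_verts.mpr ⟨_, (hv j).2.1⟩)
    rw [ce, ce]
    exact c2 u a w b (fun e => ne (congrArg _ e)) y
      (fun s t e => vi (by rw [← hy, ← hy, e])) fun j => by simpa only [← hy j, Set.mem_ofPred_eq] using hv j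

end Pool.Agent.Lib.MP_c1785c_lc
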