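import Pool.Agent.Lib.MP_c1785c_lc.Ins

/-!
A grid of nodes whose neighbours are joined by link gadgets.
-/

set_option autoImplicit false

namespace Pool.Agent.Lib.MP_c1785c_lc

def nx (l : Dsc) : ℕ × ℕ := if l.2.2.1 = 1 then (l.1 + 1, l.2.1) else (l.1, l.2.1 + 1)

def emb (l : Dsc) (k : ℕ) : Dsc :=
  if k = 0 then (l.1, l.2.1, 0, 0) else if k = 1 then ((nx l).1, (nx l).2, 0, 0) else
    (l.1, l.2.1, l.2.2.1, k)

def links (NP NQ : ℕ) (lab : ℕ → ℕ → ℕ → ℕ) : List Dsc :=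
  (List.range NP).flatMap fun P => (List.range NQ).flatMap fun Q =>
    [(P, Q, 1, lab P Q 1), (P, Q, 2, lab P Q 2)].filter fun l =>
      decide ((nx l).1 < NP) && decide ((nx l).2 < NQ)

def edges (Ls : List Dsc) : List (Dsc × Dsc) :=
  Ls.flatMap fun l => (ed l.2.2.2).map fun e => (emb l e.1, emb l e.2)

variable {NP NQ : ℕ} {lab : ℕ → ℕ → ℕ → ℕ}

lemma mem_links {P Q d τ : ℕ} : (P, Q, d, τ) ∈ links NP NQ lab ↔ τ = lab P Q d ∧
    ((d = 1 ∧ P + 1 < NP ∧ Q < NQ) ∨ (d = 2 ∧ P < NP ∧ Q + 1 < NQ)) := by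
  simp only [links, List.mem_flatMap, List.mem_range, List.mem_filter, List.mem_cons,
    Prod.mk.injEq, List.not_mem_nil, or_false, Bool.and_eq_true, decide_eq_true_eq, nx]
  constructor
  · rintro ⟨P', -, Q', -, ⟨rfl, rfl, rfl, rfl⟩ | ⟨rfl, rfl, rfl, rfl⟩, h⟩ <;> simpa using h
  · rintro ⟨rfl, ⟨rfl, h⟩ | ⟨rfl, h⟩⟩ <;> exact ⟨P, by omega, Q, by omega, by simp, by simpa using h⟩

lemma mem_edges {Ls : List Dsc} {u v : Dsc} : (u, v) ∈ edges Ls ↔
    ∃ l ∈ Ls, ∃ e ∈ ed l.2.2.2, emb l e.1 = u ∧ emb l e.2 = v := by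
  simp only [edges, List.mem_flatMap, List.mem_map, Prod.mk.injEq]

lemma mem_vs {τ k : ℕ} : k ∈ vs τ ↔ ∃ e ∈ ed τ, k = e.1 ∨ k = e.2 := by
  simp only [vs, List.mem_flatMap, List.mem_cons, List.not_mem_nil, or_false]

lemma ed_iff {Ls : List Dsc} {u v : Dsc} : Ed (edges Ls) u v ↔ ∃ l ∈ Ls, ∃ x y,
    ((x, y) ∈ ed l.2.2.2 ∨ (y, x) ∈ ed l.2.2.2) ∧ emb l x = u ∧ emb l y = v := by
  simp only [Ed, mem_edges]
  constructor
  · rintro (⟨l, hl, e, he, a, b⟩ | ⟨l, hl, e, he, a, b⟩)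
    exacts [⟨l, hl, e.1, e.2, .inl he, a, b⟩, ⟨l, hl, e.2, e.1, .inr he, b, a⟩]
  · rintro ⟨l, hl, x, y, he | he, a, b⟩
    exacts [.inl ⟨l, hl, _, he, a, b⟩, .inr ⟨l, hl, _, he, b, a⟩]

lemma vs_of {τ x y : ℕ} (h : (x, y) ∈ ed τ ∨ (y, x) ∈ ed τ) : x ∈ vs τ ∧ y ∈ vs τ :=
  h.elim (fun h => ⟨mem_vs.mpr ⟨_, h, .inl rfl⟩, mem_vs.mpr ⟨_, h, .inr rfl⟩⟩)
    fun h => ⟨mem_vs.mpr ⟨_, h, .inr rfl⟩, mem_vs.mpr ⟨_, h, .inl rfl⟩⟩

lemma par_emb (l : Dsc) (k : ℕ) : par (emb l k).2.2.2 = par k := by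
  unfold emb
  split_ifs with a b
  · rw [a]
  · rw [b]; rfl
  · rfl

lemma emb_inj {l : Dsc} {k k' : ℕ} (h : emb l k = emb l k') : k = k' := by
  unfold emb nx at h
  split_ifs at h <;> simp only [Prod.mk.injEq] at h <;> omega

lemma same_key {l l' : Dsc} (m : l ∈ links NP NQ lab) (m' : l' ∈ links NP NQ lab)
    (k : l.1 + NQ - l.2.1 + (2 - l.2.2.1) = l'.1 + NQ - l'.2.1 + (2 - l'.2.2.1)) :
    l = l' ∨ (nx l = (l'.1, l'.2.1) ∧ l.1 + l.2.1 + 1 = l'.1 + l'.2.1) ∨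
      (nx l' = (l.1, l.2.1) ∧ l'.1 + l'.2.1 + 1 = l.1 + l.2.1) ∨
      l.1 + l.2.1 + 2 ≤ l'.1 + l'.2.1 ∨ l'.1 + l'.2.1 + 2 ≤ l.1 + l.2.1 := by
  obtain ⟨P, Q, d, τ⟩ := l
  obtain ⟨P', Q', d', τ'⟩ := l'
  obtain ⟨rfl, n⟩ := mem_links.mp m
  obtain ⟨rfl, n'⟩ := mem_links.mp m'
  by_cases c : P = P' ∧ Q = Q' ∧ d = d'
  · obtain ⟨rfl, rfl, rfl⟩ := c
    exact .inl rfl
  right
  rcases n with ⟨rfl, n⟩ | ⟨rfl, n⟩ <;> rcases n' with ⟨rfl, n'⟩ | ⟨rfl, n'⟩ <;>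
    simp only [nx, if_true, OfNat.ofNat_ne_one, if_false, Prod.mk.injEq, and_true] at * <;> omega

variable (hl : ∀ P Q d, lab P Q d < 3)
include hl

lemma lt3 {l : Dsc} (h : l ∈ links NP NQ lab) : l.2.2.2 < 3 := (mem_links.mp h).1 ▸ hl _ _ _

lemma net_par (u v : Dsc) (h : Ed (edges (links NP NQ lab)) u v) : par u.2.2.2 ≠ par v.2.2.2 := by
  obtain ⟨l, m, x, y, e, rfl, rfl⟩ := ed_iff.mp h
  rw [par_emb, par_emb]
  exact e.elim (ed_par _ (lt3 hl m) _) fun e => (ed_par _ (lt3 hl m) _ e).symm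

theorem net_yes (col : ℕ → ℕ → Fin 3)
    (hc : ∀ l ∈ links NP NQ lab, Ok l.2.2.2 (col l.1 l.2.1) (col (nx l).1 (nx l).2)) (sh : Bool) :
    (inst (edges (links NP NQ lab))).CliquePlanar sh := by
  let lev : Dsc → ℕ := fun v => 12 * (v.1 + v.2.1) + if v.2.2.1 = 0 then 2 * (col v.1 v.2.1 : ℕ)
    else tl (lab v.1 v.2.1 v.2.2.1) (col v.1 v.2.1) (col (nx v).1 (nx v).2) v.2.2.2
  let X : Dsc → ℕ := fun v => 40 * (v.1 + NQ - v.2.1) + if v.2.2.1 = 0 then 40 else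
    rx v.2.2.1 (lab v.1 v.2.1 v.2.2.1) (col v.1 v.2.1) (col (nx v).1 (nx v).2) v.2.2.2
  let T : Dsc → ℕ → ℕ := fun l k => tl l.2.2.2 (col l.1 l.2.1) (col (nx l).1 (nx l).2) k
  let R : ℕ → Dsc → ℕ → ℕ := fun d l k => rx d l.2.2.2 (col l.1 l.2.1) (col (nx l).1 (nx l).2) k
  have A : ∀ l ∈ links NP NQ lab, ∀ k, lev (emb l k) = 12 * (l.1 + l.2.1) + T l k ∧
      X (emb l k) = 40 * (l.1 + NQ - l.2.1) + R l.2.2.1 l k := by
    rintro ⟨P, Q, d, τ⟩ m k
    have r := tl_range _ (lt3 hl m) _ _ (hc _ m)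
    obtain ⟨rfl, m'⟩ := mem_links.mp m
    by_cases k0 : k = 0
    · subst k0
      simp only [lev, X, T, R, emb, if_true, r.1, rx, and_self]
    by_cases k1 : k = 1
    · subst k1
      simp only [lev, X, T, R, emb, if_true, r.2.1, rx, one_ne_zero, if_false]
      rcases m' with ⟨rfl, m'⟩ | ⟨rfl, m'⟩ <;> simp [nx] <;> omega
    · simp only [lev, X, T, R, emb, k0, k1, if_false, show d ≠ 0 by omega, nx, and_self]
  have B : ∀ l ∈ links NP NQ lab, ∀ k ∈ vs l.2.2.2, (k = 0 ∧ T l k = 2 * col l.1 l.2.1 ∧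
      R l.2.2.1 l k = 40) ∨ (k = 1 ∧ T l k = 12 + 2 * col (nx l).1 (nx l).2 ∧
      R l.2.2.1 l k = if l.2.2.1 = 1 then 80 else 0) ∨ (2 ≤ k ∧ 2 * col l.1 l.2.1 < T l k ∧
      T l k < 12 + 2 * col (nx l).1 (nx l).2 ∧ 60 ≤ R 1 l k ∧ R 1 l k < 80 ∧
      R 2 l k + 40 = R 1 l k) := by
    intro l m k hk
    have r := tl_range _ (lt3 hl m) _ _ (hc _ m)
    rcases Nat.lt_or_ge k 2 with c | c
    · interval_cases k
      · exact .inl ⟨rfl, r.1, rfl⟩
      · exact .inr (.inl ⟨rfl, r.2.1, rfl⟩)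
    · exact .inr (.inr ⟨c, r.2.2 k hk c⟩)
  have V : ∀ v ∈ verts (edges (links NP NQ lab)), (v.2.2 = (0, 0) ∧ v.2.1 < NQ) ∨
      ∃ l ∈ links NP NQ lab, ∃ k ∈ vs l.2.2.2, 2 ≤ k ∧ v = emb l k := by
    intro v hv
    obtain ⟨u, hu⟩ := mem_verts.mp hv
    obtain ⟨⟨P, Q, d, τ⟩, m, x, y, e, -, rfl⟩ := ed_iff.mp hu
    rcases Nat.lt_or_ge y 2 with c | c
    · left
      have := (mem_links.mp m).2
      interval_cases y <;> simp [emb, nx] <;> grind
    · exact .inr ⟨_, m, y, (vs_of e).2, c, rfl⟩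
  refine inst_yes (net_par hl) lev X ?_ ?_ ?_ sh
  · intro u hu v hv e1 e2
    rcases V u hu with ⟨a, a'⟩ | ⟨l, m, k, hk, k2, rfl⟩ <;>
      rcases V v hv with ⟨b, b'⟩ | ⟨l', m', k', hk', k2', rfl⟩
    · obtain ⟨P, Q, _⟩ := u
      obtain ⟨P', Q', _⟩ := v
      subst a b
      have := (col P Q).2
      have := (col P' Q').2
      simp only [lev, X, if_true] at e1 e2 a' b'
      simp only [Prod.mk.injEq, and_true]
      omega
    · have := (mem_links.mp m').2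
      have := B _ m' _ hk'
      rw [(A _ m' _).2] at e2
      simp only [X, a, if_true] at e2
      rcases (mem_links.mp m').2 with ⟨d, -⟩ | ⟨d, -⟩ <;> rw [d] at e2 <;> omega
    · have := (mem_links.mp m).2
      have := B _ m _ hk
      rw [(A _ m _).2] at e2
      simp only [X, b, if_true] at e2
      rcases (mem_links.mp m).2 with ⟨d, -⟩ | ⟨d, -⟩ <;> rw [d] at e2 <;> omega
    · rw [(A _ m _).1, (A _ m' _).1] at e1
      rw [(A _ m _).2, (A _ m' _).2] at e2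
      have b1 := (B _ m _ hk).resolve_left (by omega) |>.resolve_left (by omega)
      have b2 := (B _ m' _ hk').resolve_left (by omega) |>.resolve_left (by omega)
      have := (col (nx l).1 (nx l).2).2
      have := (col (nx l').1 (nx l').2).2
      rcases same_key m m' (by
        clear e1
        rcases (mem_links.mp m).2 with ⟨d, -⟩ | ⟨d, -⟩ <;>
          rcases (mem_links.mp m').2 with ⟨d', -⟩ | ⟨d', -⟩ <;> rw [d, d'] at e2 ⊢ <;> omega)
        with rfl | ⟨c, d⟩ | ⟨c, d⟩ | c | c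
      · rw [tl_inj _ (lt3 hl m) _ _ (hc _ m) k (List.mem_dedup.mpr hk) k' (List.mem_dedup.mpr hk')
          (Nat.add_left_cancel e1) (by
            rcases (mem_links.mp m).2 with ⟨d, -⟩ | ⟨d, -⟩ <;> rw [d] at e2 <;>
              simp only [R] at e2 b1 b2 ⊢ <;> omega)]
      · rw [c] at b1; simp only at b1; omega
      · rw [c] at b2; simp only at b2; omega
      · omega
      · omega
  · intro u v h
    obtain ⟨l, m, x, y, e, rfl, rfl⟩ := ed_iff.mp h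
    rw [(A _ m _).1, (A _ m _).1]
    rcases e with e | e <;> have := tl_step _ (lt3 hl m) _ _ (hc _ m) _ e <;>
      simp only [T] at this ⊢ <;> omega
  · intro u u' v v' h h' e1 e2 e3 e4
    obtain ⟨l, m, x, y, e, rfl, rfl⟩ := ed_iff.mp h
    obtain ⟨l', m', x', y', e', rfl, rfl⟩ := ed_iff.mp h'
    simp only [A _ m, A _ m'] at e1 e2 e3 e4 ⊢
    by_cases c : l = l'
    · subst c
      have up : ∀ x y, ((x, y) ∈ ed l.2.2.2 ∨ (y, x) ∈ ed l.2.2.2) → T l x < T l y →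
          (x, y) ∈ ups l.2.2.2 (col l.1 l.2.1) (col (nx l).1 (nx l).2) := fun x y e h =>
        e.elim (fun e => List.mem_map.mpr ⟨_, e, if_pos h⟩)
          fun e => List.mem_map.mpr ⟨_, e, if_neg h.not_gt⟩
      have := tl_nc _ (lt3 hl m) _ _ (hc _ m) _ (up x y e (by omega)) _ (up x' y' e' (by omega))
        (Nat.add_left_cancel e1) l.2.2.1 (by
          rcases (mem_links.mp m).2 with ⟨d, -⟩ | ⟨d, -⟩ <;> simp [d]) (Nat.lt_of_add_lt_add_left e4)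
      exact Nat.add_le_add_left this _
    · have U : ∀ l ∈ links NP NQ lab, ∀ k ∈ vs l.2.2.2, 2 * col l.1 l.2.1 ≤ T l k ∧
          T l k ≤ 12 + 2 * col (nx l).1 (nx l).2 ∧ (if l.2.2.1 = 1 then 40 else 0) ≤ R l.2.2.1 l k ∧
          R l.2.2.1 l k ≤ if l.2.2.1 = 1 then 80 else 40 := fun l m k hk => by
        have := B l m k hk
        have := (col l.1 l.2.1).2
        rcases (mem_links.mp m).2 with ⟨d, -⟩ | ⟨d, -⟩ <;> simp only [d] at * <;> simp at * <;> omega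
      have u1 := U _ m _ (vs_of e).1
      have u2 := U _ m _ (vs_of e).2
      have u3 := U _ m' _ (vs_of e').1
      have u4 := U _ m' _ (vs_of e').2
      have := (col (nx l).1 (nx l).2).2
      have := (col (nx l').1 (nx l').2).2
      by_contra n
      rcases same_key m m' (by
        clear e1 e2 e3
        rcases (mem_links.mp m).2 with ⟨d, -⟩ | ⟨d, -⟩ <;>
          rcases (mem_links.mp m').2 with ⟨d', -⟩ | ⟨d', -⟩ <;>
          simp only [d, d', if_true, OfNat.ofNat_ne_one, if_false] at u1 u2 u3 u4 e4 n ⊢ <;> omega)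
        with c' | ⟨c, d⟩ | ⟨c, d⟩ | c | c
      · exact c c'
      · rw [c] at u2; simp only at u2; omega
      · rw [c] at u4; simp only at u4; omega
      · omega
      · omega

omit hl in
lemma conn_link {Ls : List Dsc} {l : Dsc} (m : l ∈ Ls) (h3 : l.2.2.2 < 3) {U : Set Dsc}
    (hU : ∀ k, k ≠ 1 → emb l k ∈ U) (k : ℕ) (hk : k ∈ vs l.2.2.2) (h1 : emb l k ∈ U) :
    Conn (Ed (edges Ls)) U (emb l k) (emb l 0) := by
  have step : ∀ k ∈ vs l.2.2.2, emb l k ∈ U → (∀ j ∈ vs l.2.2.2, j ≠ 1 → (j < k ∨ k = 1) →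
      Conn (Ed (edges Ls)) U (emb l j) (emb l 0)) →
      Conn (Ed (edges Ls)) U (emb l k) (emb l 0) := fun k hk h1 ih => by
    by_cases c : k = 0
    · exact c ▸ .refl h1
    obtain ⟨e, he, rfl, e1, e2⟩ := ed_back _ h3 k hk c
    exact (Conn.single h1 (hU _ e1) (.inr (mem_edges.mpr ⟨l, m, e, he, rfl, rfl⟩))).trans
      (ih _ (vs_of (.inl he)).1 e1 e2)
  have main : ∀ j, j ∈ vs l.2.2.2 → j ≠ 1 → Conn (Ed (edges Ls)) U (emb l j) (emb l 0) := by
    intro j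
    induction j using Nat.strong_induction_on with
    | h j ih => exact fun a b => step j a (hU j b) fun i c d e => ih i (e.resolve_right b) c d
  exact step k hk h1 fun j a b _ => main j a b

/-- the number of the copy a vertex belongs to -/
def ix (w : ℕ) (v : Dsc) : ℕ := if v.2.1 = 0 then 0 else v.1 / w + 1

theorem net_no {sh : Bool} (h : (inst (edges (links NP NQ lab))).CliquePlanar sh) (w : ℕ)
    (hP : 1 < NP) (hQ : 0 < NQ) : ∃ i < 5, ∃ g : ℕ → ℕ → Fin 3, ∀ l ∈ links NP NQ lab, l.2.1 ≠ 0 →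
      l.1 / w = i → (nx l).1 / w = i → Ok l.2.2.2 (g l.1 l.2.1) (g (nx l).1 (nx l).2) := by
  have ie : ∀ (l : Dsc) k, k ≠ 1 → ix w (emb l k) = ix w (l.1, l.2.1, 0, 0) := fun l k h => by
    unfold emb
    split_ifs <;> rfl
  obtain ⟨i, i1, i5, c, c1, c2⟩ := inst_no (net_par hl) h (ix w) (0, 0, 0, 0) (by
    have m : (0, 0, 1, lab 0 0 1) ∈ links NP NQ lab := mem_links.mpr ⟨rfl, .inl ⟨rfl, hP, hQ⟩⟩
    obtain ⟨e, he, k | k⟩ := mem_vs.mp (vs_ends _ (hl 0 0 1)).1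
    · exact mem_verts.mpr ⟨_, ed_iff.mpr ⟨_, m, e.2, e.1, .inr he, rfl, k ▸ rfl⟩⟩
    · exact mem_verts.mpr ⟨_, ed_iff.mpr ⟨_, m, e.1, e.2, .inl he, rfl, k ▸ rfl⟩⟩) (by
    intro i i1
    have row : ∀ P < NP, Conn (Ed (edges (links NP NQ lab))) {y | ix w y ≠ i} (P, 0, 0, 0)
        (0, 0, 0, 0) := by
      intro P
      induction P with
      | zero => exact fun _ => .refl (show 0 ≠ i by omega)
      | succ P ih =>
        intro h
        have m : (P, 0, 1, lab P 0 1) ∈ links NP NQ lab := mem_links.mpr ⟨rfl, .inl ⟨rfl, h, hQ⟩⟩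
        exact (conn_link m (hl _ _ _) (fun k a => (ie (P, 0, _) k a).trans_ne (show 0 ≠ i by omega)) 1
          (vs_ends _ (hl _ _ _)).2 (show 0 ≠ i by omega)).trans (ih (by omega))
    have colu : ∀ P < NP, ∀ Q < NQ, ix w (P, Q, 0, 0) ≠ i →
        Conn (Ed (edges (links NP NQ lab))) {y | ix w y ≠ i} (P, Q, 0, 0) (0, 0, 0, 0) := by
      intro P hP Q
      induction Q with
      | zero => exact fun _ _ => row P hP
      | succ Q ih =>
        intro h n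
        have m : (P, Q, 2, lab P Q 2) ∈ links NP NQ lab := mem_links.mpr ⟨rfl, .inr ⟨rfl, hP, h⟩⟩
        have n' : ix w (P, Q, 0, 0) ≠ i := by
          simp only [ix] at n ⊢
          split_ifs at * <;> omega
        exact (conn_link m (hl _ _ _) (fun k a => (ie _ k a).trans_ne n') 1
          (vs_ends _ (hl _ _ _)).2 n).trans (ih (by omega) n')
    intro v hv n
    obtain ⟨u, hu⟩ := mem_verts.mp hv
    obtain ⟨⟨P, Q, d, τ⟩, m, x, y, e, -, rfl⟩ := ed_iff.mp hu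
    have m' := (mem_links.mp m).2
    by_cases c : y = 1
    · subst c
      refine colu _ ?_ _ ?_ n <;> rcases m' with ⟨rfl, m'⟩ | ⟨rfl, m'⟩ <;> simp [nx] <;> omega
    · have n' := (ie _ y c).symm.trans_ne n
      exact (conn_link m (lt3 hl m) (fun k a => (ie _ k a).trans_ne n') y (vs_of e).2 n).trans
        (colu P (by omega) Q (by omega) n'))
  refine ⟨i - 1, by omega, fun P Q => c (P, Q, 0, 0), fun l m a b d => ?_⟩
  have all : ∀ k, ix w (emb l k) = i := fun k => by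
    by_cases c : k = 1
    · have : (nx l).2 ≠ 0 := by unfold nx; split_ifs <;> simp [a]
      simp only [c, emb, one_ne_zero, if_false, if_true, ix, this, d]
      omega
    · rw [ie l k c]
      simp only [ix, a, if_false, b]
      omega
  refine link_sound (fun k => c (emb l k)) (fun e he => c1 _ _ (all _) (all _)
    (.inl (mem_edges.mpr ⟨l, m, e, he, rfl, rfl⟩))) fun t ht => ?_
  obtain ⟨t1, t2, t3, t4, t5⟩ := tr_spec _ (lt3 hl m) t ht
  refine c2 _ _ (all _) (all _) (fun e => t1 (emb_inj e))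
    (fun j => emb l (![t.2.2.1, t.2.2.2.1, t.2.2.2.2] j)) (fun r s e => ?_) fun j => ?_
  · have := emb_inj e
    fin_cases r <;> fin_cases s <;> simp_all
  · have := t5 (![t.2.2.1, t.2.2.2.1, t.2.2.2.2] j) (by fin_cases j <;> simp)
    exact ⟨all _, .inl (mem_edges.mpr ⟨l, m, _, this.1, rfl, rfl⟩),
      .inr (mem_edges.mpr ⟨l, m, _, this.2, rfl, rfl⟩)⟩

end Pool.Agent.Lib.MP_c1785c_lc
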