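import Pool.Prelude.Def_H_3587d628
import Pool.Agent.Lib.MP_c1785c_lc.Hard

/-!
The final statement, kept as a library theorem only: it is probably already in the literature
(arXiv 2011.02431), so it is not handed in.
-/

namespace Pool.Agent.Lib.MP_c1785c_lc

/-- Clique planarity with at most `k` clusters is NP-hard for every `k ≥ 2`. -/
theorem two_clusters (k : ℕ) (hk : 2 ≤ k) :
    ∀ L ∈ N68a2faeb.NP, ∃ f : List Bool → Inst, N68a2faeb.IsPolyTime f ∧
      ∀ x, (f x).Valid k ∧ ∀ share : Bool, (L x = true ↔ (f x).CliquePlanar share) :=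
  fun _ hL => (hard hk hL).imp fun _ h => ⟨h.1.isPolyTime, h.2⟩

end Pool.Agent.Lib.MP_c1785c_lc
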